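import Pool.Agent.H41.GK.Exist

/-!
# Choice of the parameters (MP_d5700b)
-/

set_option autoImplicit false

open Finset Filter Topology

namespace H41.GK

/-- Chernoff bound for the random set `S` -/
theorem chernoff (k : ℕ) (A : Finset ℕ) (hA : ∀ p ∈ A, 0 < p) (x : ℕ → ℝ)
    (hx : ∀ p ∈ A, 0 ≤ x p ∧ x p ≤ 1) (M : ℝ) :
    ∑ S ∈ A.powerset.filter (fun S => M < ∑ p ∈ S, x p), PP k A S ≤
      Real.exp (-M + ∑ p ∈ A, (dl k p * x p + dl k p * x p ^ 2)) := by
  have h1 : ∀ S ∈ A.powerset.filter (fun S => M < ∑ p ∈ S, x p), PP k A S ≤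
      Real.exp (-M) * ∏ p ∈ A, (if p ∈ S then dl k p * Real.exp (x p) else 1 - dl k p) := by
    intro S hS
    rw [mem_filter, mem_powerset] at hS
    have e : ∏ p ∈ A, (if p ∈ S then dl k p * Real.exp (x p) else 1 - dl k p) =
        PP k A S * Real.exp (∑ p ∈ S, x p) := by
      have e1 : Real.exp (∑ p ∈ S, x p) = ∏ p ∈ A, (if p ∈ S then Real.exp (x p) else 1) := by
        rw [Real.exp_sum, Finset.prod_ite, Finset.filter_mem_eq_inter,
          Finset.inter_eq_right.2 hS.1]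
        simp
      rw [e1, PP, ← Finset.prod_mul_distrib]
      refine Finset.prod_congr rfl fun p _ => ?_
      split_ifs <;> ring
    rw [e, mul_comm (PP k A S), ← mul_assoc, ← Real.exp_add]
    have h2 : 1 ≤ Real.exp (-M + ∑ p ∈ S, x p) := Real.one_le_exp (by linarith [hS.2])
    exact le_mul_of_one_le_left (PP_nonneg k A S hA) h2
  refine (Finset.sum_le_sum h1).trans ?_
  have h2 : ∑ S ∈ A.powerset.filter (fun S => M < ∑ p ∈ S, x p),
      Real.exp (-M) * ∏ p ∈ A, (if p ∈ S then dl k p * Real.exp (x p) else 1 - dl k p) ≤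
      ∑ S ∈ A.powerset,
      Real.exp (-M) * ∏ p ∈ A, (if p ∈ S then dl k p * Real.exp (x p) else 1 - dl k p) := by
    refine Finset.sum_le_sum_of_subset_of_nonneg (Finset.filter_subset _ _) fun S _ _ => ?_
    refine mul_nonneg (Real.exp_pos _).le (Finset.prod_nonneg fun p hp => ?_)
    split_ifs
    · exact mul_nonneg (dl_nonneg k p) (Real.exp_pos _).le
    · linarith [dl_lt (k := k) (hA p hp)]
  refine h2.trans ?_
  rw [← Finset.mul_sum, expand, Real.exp_add, Real.exp_sum]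
  refine mul_le_mul_of_nonneg_left ?_ (Real.exp_pos _).le
  refine Finset.prod_le_prod (fun p hp => ?_) fun p hp => ?_
  · have := dl_lt (k := k) (hA p hp)
    have := mul_nonneg (dl_nonneg k p) (Real.exp_pos (x p)).le
    linarith
  · have h3 : |Real.exp (x p) - 1 - x p| ≤ x p ^ 2 :=
      Real.abs_exp_sub_one_sub_id_le (by rw [abs_of_nonneg (hx p hp).1]; exact (hx p hp).2)
    have h4 := (abs_le.1 h3).2
    have h5 := dl_nonneg k p
    have h6 := Real.add_one_le_exp (dl k p * x p + dl k p * x p ^ 2)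
    nlinarith

/-- `π(n) log n ≤ 4 n` for large `n` -/
theorem pi_log : ∃ N : ℕ, ∀ n : ℕ, N ≤ n → (Nat.primeCounting n : ℝ) * Real.log n ≤ 4 * n := by
  have h1 : ∀ᶠ x : ℝ in atTop, Real.log x ≤ (1 / 4) * x := by
    have := Real.isLittleO_log_id_atTop.bound (show (0 : ℝ) < 1 / 4 by norm_num)
    filter_upwards [this, eventually_ge_atTop 1] with x hx hx1
    rw [Real.norm_eq_abs, Real.norm_eq_abs, id] at hx
    rw [abs_of_nonneg (Real.log_nonneg hx1), abs_of_nonneg (by linarith)] at hx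
    exact hx
  have h2 : Tendsto (fun n : ℕ => Real.sqrt n) atTop atTop :=
    Real.tendsto_sqrt_atTop.comp tendsto_natCast_atTop_atTop
  have h3 := h2.eventually h1
  obtain ⟨N, hN⟩ := eventually_atTop.1 h3
  refine ⟨N + 2, fun n hn => ?_⟩
  have hn2 : (2 : ℝ) ≤ n := by exact_mod_cast (by omega : 2 ≤ n)
  have h4 := hN n (by omega)
  have h5 : Real.log (Real.sqrt n) = Real.log n / 2 := Real.log_sqrt (by linarith)
  rw [h5] at h4
  have h6 := Chebyshev.pi_le_log4_mul_div (x := (n : ℝ)) (by linarith)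
  rw [Nat.floor_natCast, h5] at h6
  have hl : 0 < Real.log n := Real.log_pos (by linarith)
  have hs : 0 ≤ Real.sqrt n := Real.sqrt_nonneg _
  have hss : Real.sqrt n * Real.sqrt n = n := Real.mul_self_sqrt (by linarith)
  have hlog4 : Real.log 4 ≤ 1.4 := by
    have : Real.log 4 = 2 * Real.log 2 := by
      rw [show (4 : ℝ) = 2 ^ 2 by norm_num, Real.log_pow]; norm_num
    rw [this]
    linarith [Real.log_two_lt_d9]
  have h7 : (Nat.primeCounting n : ℝ) * Real.log n ≤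
      (Real.log 4 * n / (Real.log n / 2) + Real.sqrt n) * Real.log n :=
    mul_le_mul_of_nonneg_right h6 hl.le
  have h8 : (Real.log 4 * n / (Real.log n / 2) + Real.sqrt n) * Real.log n =
      2 * Real.log 4 * n + Real.sqrt n * Real.log n := by
    field_simp
  rw [h8] at h7
  have h9 : Real.sqrt n * Real.log n ≤ n / 2 := by
    have : Real.sqrt n * Real.log n ≤ Real.sqrt n * (Real.sqrt n / 2) :=
      mul_le_mul_of_nonneg_left (by linarith) hs
    linarith
  nlinarith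

/-- primes up to `k` -/
def PK (k : ℕ) : Finset ℕ := (Finset.Icc 1 k).filter Nat.Prime

theorem mem_PK {k p : ℕ} : p ∈ PK k ↔ p.Prime ∧ p ≤ k := by
  unfold PK
  rw [mem_filter, mem_Icc]
  constructor
  · rintro ⟨⟨_, h⟩, hp⟩; exact ⟨hp, h⟩
  · rintro ⟨hp, h⟩; exact ⟨⟨hp.pos, h⟩, hp⟩

theorem card_PK (k : ℕ) : (PK k).card = Nat.primeCounting k := by
  have : PK k = (Finset.range (k + 1)).filter Nat.Prime := by
    ext p
    rw [mem_PK, mem_filter, mem_range]
    constructor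
    · rintro ⟨hp, h⟩; exact ⟨by omega, hp⟩
    · rintro ⟨h, hp⟩; exact ⟨hp, by omega⟩
  rw [this, Nat.primeCounting, Nat.primeCounting', Nat.count_eq_card_filter_range]

theorem theta_PK (k : ℕ) : ∑ p ∈ PK k, Real.log p ≤ 1.4 * k := by
  have h1 := Chebyshev.theta_le_log4_mul_x (x := (k : ℝ)) (Nat.cast_nonneg _)
  have h2 : Chebyshev.theta (k : ℝ) = ∑ p ∈ PK k, Real.log p := by
    unfold Chebyshev.theta
    rw [Nat.floor_natCast]
    congr 1
  rw [h2] at h1
  refine h1.trans (mul_le_mul_of_nonneg_right ?_ (Nat.cast_nonneg _))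
  have : Real.log 4 = 2 * Real.log 2 := by
    rw [show (4 : ℝ) = 2 ^ 2 by norm_num, Real.log_pow]; norm_num
  rw [this]
  linarith [Real.log_two_lt_d9]

/-- sieved primes -/
def AA (Y k : ℕ) : Finset ℕ := (PK k).filter (fun p => Y < p ∧ 2 * (k % p) < p)
/-- primes dividing `E` once -/
def BB (Y k : ℕ) : Finset ℕ := (PK k).filter (fun p => Y < p ∧ p ≤ 2 * (k % p))
/-- small primes -/
def CC (Y k : ℕ) : Finset ℕ := (PK k).filter (fun p => p ≤ Y)
/-- the modulus -/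
def EE (Y k : ℕ) : ℕ := (∏ p ∈ BB Y k, p) * ∏ p ∈ CC Y k, p ^ (Nat.log p k + 1)

theorem mem_AA {Y k p : ℕ} : p ∈ AA Y k ↔ p.Prime ∧ p ≤ k ∧ Y < p ∧ 2 * (k % p) < p := by
  unfold AA; rw [mem_filter, mem_PK, and_assoc]

theorem mem_BB {Y k p : ℕ} : p ∈ BB Y k ↔ p.Prime ∧ p ≤ k ∧ Y < p ∧ p ≤ 2 * (k % p) := by
  unfold BB; rw [mem_filter, mem_PK, and_assoc]

theorem mem_CC {Y k p : ℕ} : p ∈ CC Y k ↔ p.Prime ∧ p ≤ k ∧ p ≤ Y := by
  unfold CC; rw [mem_filter, mem_PK, and_assoc]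

theorem EE_pos (Y k : ℕ) : 0 < EE Y k :=
  Nat.mul_pos (Finset.prod_pos fun _ hp => (mem_BB.1 hp).1.pos)
    (Finset.prod_pos fun _ hp => pow_pos (mem_CC.1 hp).1.pos _)

theorem EE_coprime {Y k p : ℕ} (hp : p ∈ AA Y k) : Nat.Coprime (EE Y k) p := by
  obtain ⟨hpp, hpk, hY, hlt⟩ := mem_AA.1 hp
  refine Nat.Coprime.mul_left (Nat.Coprime.prod_left fun q hq => ?_)
    (Nat.Coprime.prod_left fun q hq => ?_)
  · obtain ⟨hqp, hqk, hYq, hle⟩ := mem_BB.1 hq
    refine (Nat.coprime_primes hqp hpp).2 ?_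
    rintro rfl
    omega
  · obtain ⟨hqp, hqk, hqY⟩ := mem_CC.1 hq
    refine Nat.Coprime.pow_left _ ((Nat.coprime_primes hqp hpp).2 ?_)
    rintro rfl
    omega

theorem EE_split {Y k p : ℕ} (hp : p ∈ BB Y k) :
    ∃ E', EE Y k = p * E' ∧ Nat.Coprime E' p := by
  obtain ⟨hpp, hpk, hY, hle⟩ := mem_BB.1 hp
  refine ⟨(∏ q ∈ (BB Y k).erase p, q) * ∏ q ∈ CC Y k, q ^ (Nat.log q k + 1), ?_, ?_⟩
  · unfold EE
    rw [← Finset.mul_prod_erase _ _ hp, mul_assoc]
  · refine Nat.Coprime.mul_left (Nat.Coprime.prod_left fun q hq => ?_)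
      (Nat.Coprime.prod_left fun q hq => ?_)
    · have hq' := Finset.mem_erase.1 hq
      exact (Nat.coprime_primes (mem_BB.1 hq'.2).1 hpp).2 hq'.1
    · obtain ⟨hqp, hqk, hqY⟩ := mem_CC.1 hq
      refine Nat.Coprime.pow_left _ ((Nat.coprime_primes hqp hpp).2 ?_)
      rintro rfl
      omega

theorem EE_dvd {Y k p : ℕ} (hp : p ∈ CC Y k) : p ^ (Nat.log p k + 1) ∣ EE Y k :=
  (Finset.dvd_prod_of_mem (fun p => p ^ (Nat.log p k + 1)) hp).mul_left _

theorem EE_gt {Y k : ℕ} (hY : 3 ≤ Y) (hk : 3 ≤ k) : k + 3 ≤ EE Y k := by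
  have h2 : (2 : ℕ) ∈ CC Y k := mem_CC.2 ⟨Nat.prime_two, by omega, by omega⟩
  have h3 : (3 : ℕ) ∈ CC Y k := mem_CC.2 ⟨Nat.prime_three, by omega, by omega⟩
  have hd : 2 ^ (Nat.log 2 k + 1) * 3 ^ (Nat.log 3 k + 1) ∣ EE Y k :=
    Nat.Coprime.mul_dvd_of_dvd_of_dvd
      (Nat.Coprime.pow _ _ (by norm_num)) (EE_dvd h2) (EE_dvd h3)
  have h4 := Nat.le_of_dvd (EE_pos Y k) hd
  have h5 : k < 2 ^ (Nat.log 2 k + 1) := Nat.lt_pow_succ_log_self (by norm_num) k
  have h6 : k < 3 ^ (Nat.log 3 k + 1) := Nat.lt_pow_succ_log_self (by norm_num) k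
  have h7 : (k + 1) * (k + 1) ≤ 2 ^ (Nat.log 2 k + 1) * 3 ^ (Nat.log 3 k + 1) :=
    Nat.mul_le_mul h5 h6
  nlinarith

theorem log_EE (Y k : ℕ) :
    Real.log (EE Y k) ≤ ∑ p ∈ BB Y k, Real.log p + 2 * (Nat.primeCounting Y : ℝ) * Real.log k := by
  unfold EE
  have hB : ((∏ p ∈ BB Y k, p : ℕ) : ℝ) ≠ 0 := by
    exact_mod_cast (Finset.prod_pos fun _ hp => (mem_BB.1 hp).1.pos).ne'
  have hC : ((∏ p ∈ CC Y k, p ^ (Nat.log p k + 1) : ℕ) : ℝ) ≠ 0 := by
    exact_mod_cast (Finset.prod_pos fun _ hp => pow_pos (mem_CC.1 hp).1.pos _).ne'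
  rw [Nat.cast_mul, Real.log_mul hB hC]
  refine add_le_add (le_of_eq ?_) ?_
  · push_cast
    rw [Real.log_prod]
    intro p hp
    exact_mod_cast (mem_BB.1 hp).1.pos.ne'
  · push_cast
    rw [Real.log_prod]
    · have h1 : ∀ p ∈ CC Y k, Real.log ((p : ℝ) ^ (Nat.log p k + 1)) ≤ 2 * Real.log k := by
        intro p hp
        obtain ⟨hpp, hpk, _⟩ := mem_CC.1 hp
        have hp0 : (0 : ℝ) < p := by exact_mod_cast hpp.pos
        have hk0 : k ≠ 0 := by have := hpp.pos; omega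
        rw [pow_succ, Real.log_mul (by positivity) hp0.ne']
        have h2 : Real.log ((p : ℝ) ^ Nat.log p k) ≤ Real.log k := by
          apply Real.log_le_log (by positivity)
          exact_mod_cast Nat.pow_log_le_self p hk0
        have h3 : Real.log p ≤ Real.log k :=
          Real.log_le_log hp0 (by exact_mod_cast hpk)
        linarith
      refine (Finset.sum_le_sum h1).trans ?_
      rw [Finset.sum_const, nsmul_eq_mul]
      have h2 : (CC Y k).card ≤ Nat.primeCounting Y := by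
        rw [← card_PK]
        refine Finset.card_le_card fun p hp => ?_
        obtain ⟨hpp, _, hpY⟩ := mem_CC.1 hp
        exact mem_PK.2 ⟨hpp, hpY⟩
      have h3 : ((CC Y k).card : ℝ) ≤ Nat.primeCounting Y := by exact_mod_cast h2
      have h4 : 0 ≤ Real.log k := Real.log_natCast_nonneg k
      nlinarith
    · intro p hp
      have : (0 : ℝ) < p := by exact_mod_cast (mem_CC.1 hp).1.pos
      positivity

end H41.GK
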