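import Mathlib

/-!
# The constant `1 - γ + log (4/π)` (MP_d5700b)
-/

set_option autoImplicit false

open Finset

namespace H41.GK

/-- the constant -/
noncomputable def c0 : ℝ := 1 - Real.eulerMascheroniConstant + Real.log (4 / Real.pi)

theorem wallis_log (J : ℕ) : ∑ j ∈ range J, 2 * Real.log ((2 * j + 3 : ℝ) / (2 * j + 2)) =
    Real.log (2 * J + 1) - Real.log (Real.Wallis.W J) := by
  induction J with
  | zero => simp [Real.Wallis.W]
  | succ J ih =>
    rw [Finset.sum_range_succ, ih, Real.Wallis.W_succ]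
    have hW := Real.Wallis.W_pos J
    have h1 : (0 : ℝ) < 2 * J + 1 := by positivity
    have h2 : (0 : ℝ) < 2 * J + 2 := by positivity
    have h3 : (0 : ℝ) < 2 * J + 3 := by positivity
    rw [Real.log_mul hW.ne' (by positivity), Real.log_mul (by positivity) (by positivity),
      Real.log_div h3.ne' h2.ne', Real.log_div h2.ne' h1.ne', Real.log_div h2.ne' h3.ne']
    push_cast
    have : (2 * ((J : ℝ) + 1) + 1) = 2 * J + 3 := by ring
    rw [this]
    ring

theorem harm (J : ℕ) : ∑ j ∈ range J, 1 / ((j : ℝ) + 2) = (harmonic (J + 1) : ℝ) - 1 := by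
  induction J with
  | zero => simp [harmonic]
  | succ J ih =>
    rw [Finset.sum_range_succ, ih, harmonic_succ (J + 1)]
    push_cast
    have : ((J : ℝ) + 1 + 1) = J + 2 := by ring
    rw [this]
    ring

theorem sJ_le (J : ℕ) : ∑ j ∈ range J, (2 * Real.log ((2 * j + 3 : ℝ) / (2 * j + 2)) -
    1 / ((j : ℝ) + 2)) ≤ c0 := by
  rw [Finset.sum_sub_distrib, wallis_log, harm]
  have hW := Real.Wallis.le_W J
  have hW0 := Real.Wallis.W_pos J
  have h1 : (0 : ℝ) < 2 * J + 1 := by positivity
  have h2 : (0 : ℝ) < 2 * J + 2 := by positivity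
  have hpi := Real.pi_pos
  have h3 : Real.log ((2 * (J : ℝ) + 1) / (2 * J + 2) * (Real.pi / 2)) ≤
      Real.log (Real.Wallis.W J) := Real.log_le_log (by positivity) hW
  have h4 := Real.eulerMascheroniConstant_lt_eulerMascheroniSeq' (J + 1)
  have h5 : Real.eulerMascheroniSeq' (J + 1) = harmonic (J + 1) - Real.log ((J + 1 : ℕ) : ℝ) := by
    unfold Real.eulerMascheroniSeq'
    rw [if_neg (by omega)]
  rw [h5] at h4
  rw [Real.log_mul (by positivity) (by positivity), Real.log_div h1.ne' h2.ne',
    Real.log_div hpi.ne' (by norm_num)] at h3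
  have h6 : Real.log (2 * (J : ℝ) + 2) = Real.log 2 + Real.log ((J + 1 : ℕ) : ℝ) := by
    rw [← Real.log_mul (by norm_num) (by positivity)]
    congr 1
    push_cast
    ring
  have h7 : Real.log (4 / Real.pi) = 2 * Real.log 2 - Real.log Real.pi := by
    rw [Real.log_div (by norm_num) hpi.ne', show (4 : ℝ) = 2 ^ 2 by norm_num, Real.log_pow]
    norm_num
  unfold c0
  rw [h7]
  rw [h6] at h3
  linarith

theorem c0_lt : c0 < Real.log 2 := by
  have h1 := Real.eulerMascheroniSeq_lt_eulerMascheroniConstant 31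
  have h2 : Real.eulerMascheroniSeq 31 = (harmonic 31 : ℝ) - 5 * Real.log 2 := by
    unfold Real.eulerMascheroniSeq
    congr 1
    rw [show ((31 : ℕ) : ℝ) + 1 = 2 ^ 5 by norm_num, Real.log_pow]
    norm_num
  have h3 : (4.0272 : ℝ) < (harmonic 31 : ℝ) := by
    have h : (40272 / 10000 : ℚ) < harmonic 31 := by
      simp only [harmonic, Finset.sum_range_succ, Finset.sum_range_zero]
      norm_num
    have h' : (((40272 / 10000 : ℚ)) : ℝ) < ((harmonic 31 : ℚ) : ℝ) := Rat.cast_lt.2 h
    push_cast at h'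
    linarith
  have h4 : (13 / 20 : ℝ) * Real.log 2 ≤ Real.log (Real.pi / 2) := by
    have h5 : Real.log ((2 : ℝ) ^ 13) ≤ Real.log ((Real.pi / 2) ^ 20) := by
      apply Real.log_le_log (by norm_num)
      have h6 : (1.5707 : ℝ) ≤ Real.pi / 2 := by
        have := Real.pi_gt_d4
        linarith
      calc (2 : ℝ) ^ 13 ≤ 1.5707 ^ 20 := by norm_num
        _ ≤ (Real.pi / 2) ^ 20 := pow_le_pow_left₀ (by norm_num) h6 20
    rw [Real.log_pow, Real.log_pow] at h5
    push_cast at h5
    linarith
  have h5 : Real.log (4 / Real.pi) = Real.log 2 - Real.log (Real.pi / 2) := by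
    rw [← Real.log_div (by norm_num) (by positivity)]
    congr 1
    field_simp
    norm_num
  unfold c0
  rw [h5]
  rw [h2] at h1
  have := Real.log_two_gt_d9
  have := Real.log_two_lt_d9
  linarith

end H41.GK
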