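import Pool.Agent.H41.GK.Per

/-!
# A lower-bound sieve (truncation of the indicator function, squared) (MP_d5700b)
-/

set_option autoImplicit false

open Finset

namespace H41.GK

/-- density of the bad residues -/
noncomputable def dl (k p : ℕ) : ℝ := ((k % p : ℕ) : ℝ) / p

/-- `n = (t + 1) E - 1` -/
def nn (E t : ℕ) : ℕ := t * E + (E - 1)

/-- the last digit of `n` is too small -/
noncomputable def b1 (k E p t : ℕ) : ℝ := if nn E t % p < k % p then 1 else 0

/-- the second digit of `n` is too small -/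
noncomputable def b2 (k E q t : ℕ) : ℝ := if (nn E t / q) % q < k / q then 1 else 0

/-- local factor -/
noncomputable def tau (k E : ℕ) (S : Finset ℕ) (p t : ℕ) : ℝ :=
  if p ∈ S then -(b1 k E p t - dl k p) else 1 - dl k p

/-- the term of `S` in the expansion of the indicator function of the good `t` -/
noncomputable def term (k E : ℕ) (A S : Finset ℕ) (t : ℕ) : ℝ := ∏ p ∈ A, tau k E S p t

/-- probability of `S` -/
noncomputable def PP (k : ℕ) (A S : Finset ℕ) : ℝ := ∏ p ∈ A, (if p ∈ S then dl k p else 1 - dl k p)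

/-- density of the good `t` -/
noncomputable def GG (k : ℕ) (A : Finset ℕ) : ℝ := ∏ p ∈ A, (1 - dl k p)

theorem dl_nonneg (k p : ℕ) : 0 ≤ dl k p := div_nonneg (Nat.cast_nonneg _) (Nat.cast_nonneg _)

theorem dl_lt {k p : ℕ} (hp : 0 < p) : dl k p < 1 := by
  unfold dl
  rw [div_lt_one (by exact_mod_cast hp)]
  exact_mod_cast Nat.mod_lt k hp

theorem b1_zero_or (k E p t : ℕ) : b1 k E p t = 0 ∨ b1 k E p t = 1 := by
  unfold b1; split_ifs <;> simp

theorem b2_zero_or (k E p t : ℕ) : b2 k E p t = 0 ∨ b2 k E p t = 1 := by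
  unfold b2; split_ifs <;> simp

theorem b1_pd (k E p : ℕ) : Pd (b1 k E p) p := by
  intro t
  have : nn E (t + p) % p = nn E t % p := by
    unfold nn
    have : (t + p) * E + (E - 1) = t * E + (E - 1) + p * E := by ring
    rw [this, Nat.add_mul_mod_self_left]
  unfold b1
  rw [this]

theorem tau_abs (k E : ℕ) (S : Finset ℕ) {p : ℕ} (hp : 0 < p) (t : ℕ) : |tau k E S p t| ≤ 1 := by
  have h1 := dl_nonneg k p
  have h2 := dl_lt (k := k) hp
  unfold tau
  rw [abs_le]
  split_ifs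
  · rcases b1_zero_or k E p t with h | h <;> rw [h] <;> constructor <;> linarith
  · constructor <;> linarith

theorem term_abs (k E : ℕ) (A S : Finset ℕ) (hA : ∀ p ∈ A, 0 < p) (t : ℕ) :
    |term k E A S t| ≤ 1 := by
  unfold term
  rw [Finset.abs_prod]
  exact Finset.prod_le_one (fun _ _ => abs_nonneg _) fun p hp => tau_abs k E S (hA p hp) t

theorem tau_pd (k E : ℕ) (S : Finset ℕ) (p : ℕ) : Pd (tau k E S p) p := by
  intro t
  unfold tau
  rw [b1_pd k E p t]

theorem tau_pd' (k E : ℕ) (S : Finset ℕ) {p : ℕ} (hp : p ∉ S) (d : ℕ) : Pd (tau k E S p) d := by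
  intro t
  unfold tau
  rw [if_neg hp, if_neg hp]

theorem term_pd (k E : ℕ) (A S : Finset ℕ) {D : ℕ} (hD : ∀ p ∈ S, p ∣ D) :
    Pd (term k E A S) D := by
  refine Pd.prod fun p _ => ?_
  by_cases hp : p ∈ S
  · exact (tau_pd k E S p).of_dvd (hD p hp)
  · exact tau_pd' k E S hp D

theorem expand (A : Finset ℕ) (f g : ℕ → ℝ) :
    ∑ S ∈ A.powerset, ∏ p ∈ A, (if p ∈ S then f p else g p) = ∏ p ∈ A, (f p + g p) := by
  rw [Finset.prod_add]
  refine Finset.sum_congr rfl fun S hS => ?_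
  rw [Finset.mem_powerset] at hS
  rw [Finset.prod_ite, Finset.filter_mem_eq_inter, Finset.inter_eq_right.2 hS,
    Finset.filter_notMem_eq_sdiff]

theorem PP_sum (k : ℕ) (A : Finset ℕ) : ∑ S ∈ A.powerset, PP k A S = 1 := by
  unfold PP
  rw [expand]
  exact Finset.prod_eq_one fun p _ => by ring

theorem PP_nonneg (k : ℕ) (A S : Finset ℕ) (hA : ∀ p ∈ A, 0 < p) : 0 ≤ PP k A S := by
  refine Finset.prod_nonneg fun p hp => ?_
  split_ifs
  · exact dl_nonneg k p
  · linarith [dl_lt (k := k) (hA p hp)]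

theorem term_sum (k E : ℕ) (A : Finset ℕ) (t : ℕ) :
    ∑ S ∈ A.powerset, term k E A S t = ∏ p ∈ A, (1 - b1 k E p t) := by
  unfold term tau
  rw [expand]
  exact Finset.prod_congr rfl fun p _ => by ring

theorem sum_b1 {k E p : ℕ} (hp : 0 < p) (hE : Nat.Coprime E p) :
    ∑ t ∈ range p, b1 k E p t = (k % p : ℕ) := by
  have h1 := sum_affine hp hE (E - 1) (fun a => if a < k % p then (1 : ℝ) else 0)
  rw [sum_lt (Nat.mod_lt k hp).le] at h1
  rw [← h1]
  refine Finset.sum_congr rfl fun t _ => ?_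
  unfold b1 nn
  rw [add_comm (t * E), mul_comm t E]

theorem local_mean {k E p : ℕ} (hp : 0 < p) (hE : Nat.Coprime E p) (S S' : Finset ℕ) :
    ∑ t ∈ range p, tau k E S p t * tau k E S' p t =
      if (p ∈ S ↔ p ∈ S') then p * (1 - dl k p) * (if p ∈ S then dl k p else 1 - dl k p) else 0 := by
  have hpR : (0 : ℝ) < p := by exact_mod_cast hp
  have hb := sum_b1 (k := k) hp hE
  have hd : ((k % p : ℕ) : ℝ) = p * dl k p := by
    unfold dl; field_simp
  rw [hd] at hb
  have hb2 : ∑ t ∈ range p, (b1 k E p t - dl k p) = 0 := by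
    rw [Finset.sum_sub_distrib, hb]
    simp
  have hb3 : ∑ t ∈ range p, (b1 k E p t - dl k p) ^ 2 = p * (1 - dl k p) * dl k p := by
    have : ∀ t ∈ range p, (b1 k E p t - dl k p) ^ 2 =
        (1 - 2 * dl k p) * b1 k E p t + dl k p ^ 2 := by
      intro t _
      rcases b1_zero_or k E p t with h | h <;> rw [h] <;> ring
    rw [Finset.sum_congr rfl this, Finset.sum_add_distrib, ← Finset.mul_sum, hb]
    simp
    ring
  unfold tau
  by_cases h1 : p ∈ S <;> by_cases h2 : p ∈ S'
  · simp only [h1, h2, if_true, iff_self]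
    rw [← hb3]
    exact Finset.sum_congr rfl fun t _ => by ring
  · simp only [h1, h2, if_true, if_false, iff_false, not_true_eq_false]
    rw [← Finset.sum_mul, Finset.sum_neg_distrib, hb2]
    simp
  · simp only [h1, h2, if_true, if_false, iff_true]
    rw [← Finset.mul_sum, Finset.sum_neg_distrib, hb2]
    simp
  · simp only [h1, h2, if_false, iff_self, if_true]
    rw [Finset.sum_const, card_range, nsmul_eq_mul]
    ring

theorem term_mean {k E : ℕ} {A : Finset ℕ} (hA : ∀ p ∈ A, p.Prime ∧ Nat.Coprime E p)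
    {S S' : Finset ℕ} (hS : S ∈ A.powerset) (hS' : S' ∈ A.powerset) :
    ∑ t ∈ range (∏ p ∈ A, p), term k E A S t * term k E A S' t =
      if S = S' then ((∏ p ∈ A, p : ℕ) : ℝ) * (GG k A * PP k A S) else 0 := by
  have h1 : ∀ t, term k E A S t * term k E A S' t = ∏ p ∈ A, (tau k E S p t * tau k E S' p t) := by
    intro t
    unfold term
    rw [Finset.prod_mul_distrib]
  simp only [h1]
  rw [sum_prod A (fun p hp => (hA p hp).1) (fun p t => tau k E S p t * tau k E S' p t)
    (fun p _ => (tau_pd k E S p).mul (tau_pd k E S' p))]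
  rw [Finset.prod_congr rfl fun p hp => local_mean (hA p hp).1.pos (hA p hp).2 S S']
  rw [mem_powerset] at hS hS'
  split_ifs with h
  · subst h
    unfold GG PP
    push_cast
    rw [← Finset.prod_mul_distrib, ← Finset.prod_mul_distrib]
    refine Finset.prod_congr rfl fun p _ => ?_
    simp only [iff_self, if_true]
    ring
  · have : ∃ p ∈ A, ¬ (p ∈ S ↔ p ∈ S') := by
      by_contra hcon
      push Not at hcon
      apply h
      ext p
      constructor
      · intro hp
        exact (hcon p (hS hp)).1 hp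
      · intro hp
        exact (hcon p (hS' hp)).2 hp
    obtain ⟨p, hp, hpn⟩ := this
    exact Finset.prod_eq_zero hp (if_neg hpn)

theorem fam_mean {k E : ℕ} {A : Finset ℕ} (hA : ∀ p ∈ A, p.Prime ∧ Nat.Coprime E p)
    {F : Finset (Finset ℕ)} (hF : F ⊆ A.powerset) :
    ∑ t ∈ range (∏ p ∈ A, p), (∑ S ∈ F, term k E A S t) ^ 2 =
      ((∏ p ∈ A, p : ℕ) : ℝ) * (GG k A * ∑ S ∈ F, PP k A S) := by
  have h1 : ∀ t, (∑ S ∈ F, term k E A S t) ^ 2 =
      ∑ S ∈ F, ∑ S' ∈ F, term k E A S t * term k E A S' t := by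
    intro t
    rw [sq, Finset.sum_mul_sum]
  simp only [h1]
  rw [Finset.sum_comm]
  have h2 : ∀ S ∈ F, ∑ t ∈ range (∏ p ∈ A, p), ∑ S' ∈ F, term k E A S t * term k E A S' t =
      ((∏ p ∈ A, p : ℕ) : ℝ) * (GG k A * PP k A S) := by
    intro S hS
    rw [Finset.sum_comm]
    rw [Finset.sum_congr rfl fun S' hS' => term_mean hA (hF hS) (hF hS')]
    rw [Finset.sum_ite_eq, if_pos hS]
  rw [Finset.sum_congr rfl h2, ← Finset.mul_sum, ← Finset.mul_sum]

theorem bad_mean {k E : ℕ} {A : Finset ℕ} (hA : ∀ p ∈ A, p.Prime ∧ Nat.Coprime E p)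
    {F : Finset (Finset ℕ)} (hF : F ⊆ A.powerset) {q : ℕ} (hq : q ∈ A) :
    ∑ t ∈ range (∏ p ∈ A, p), (∑ S ∈ F, term k E A S t) ^ 2 * b1 k E q t ≤
      ((∏ p ∈ A, p : ℕ) : ℝ) * (GG k A * (1 - ∑ S ∈ F, PP k A S)) := by
  have h0 : A.powerset \ F ⊆ A.powerset := Finset.sdiff_subset
  have h1 := fam_mean (k := k) (E := E) hA h0
  have h2 : ∑ S ∈ A.powerset \ F, PP k A S = 1 - ∑ S ∈ F, PP k A S := by
    have := Finset.sum_sdiff (f := PP k A) hF
    rw [PP_sum] at this
    linarith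
  rw [h2] at h1
  rw [← h1]
  refine Finset.sum_le_sum fun t _ => ?_
  rcases b1_zero_or k E q t with h | h
  · rw [h, mul_zero]
    positivity
  · have h3 := Finset.sum_sdiff (f := fun S => term k E A S t) hF
    rw [term_sum, Finset.prod_eq_zero hq (by rw [h]; ring)] at h3
    have h4 : ∑ S ∈ F, term k E A S t = -∑ S ∈ A.powerset \ F, term k E A S t := by linarith
    rw [h4, h, mul_one, neg_sq]

theorem mean_eq {h : ℕ → ℝ} {D R : ℕ} (hh : Pd h D) (hD : 0 < D) (hR : D ∣ R) (hR0 : 0 < R) :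
    (∑ t ∈ range R, h t) / R = (∑ t ∈ range D, h t) / D := by
  obtain ⟨q, rfl⟩ := hR
  have hq : 0 < q := Nat.pos_of_mul_pos_left hR0
  have hqR : (0 : ℝ) < q := by exact_mod_cast hq
  have hdR : (0 : ℝ) < D := by exact_mod_cast hD
  rw [mul_comm D q, sum_mul_period hh]
  push_cast
  field_simp

theorem second {k E D q V : ℕ} (hq : 0 < q) (hk : k / q ≤ q) (hV : D * E = q * V)
    (hc : Nat.Coprime V q) (t₀ : ℕ) :
    ∑ j ∈ range q, b2 k E q (t₀ + D * j) = (k / q : ℕ) := by
  have h1 := sum_affine hq hc (nn E t₀ / q) (fun a => if a < k / q then (1 : ℝ) else 0)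
  rw [sum_lt hk] at h1
  rw [← h1]
  refine Finset.sum_congr rfl fun j _ => ?_
  have e : nn E (t₀ + D * j) = nn E t₀ + q * (V * j) := by
    unfold nn
    calc (t₀ + D * j) * E + (E - 1) = t₀ * E + (E - 1) + (D * E) * j := by ring
      _ = _ := by rw [hV]; ring
  unfold b2
  rw [e, Nat.add_mul_div_left _ _ hq]

theorem b2_pd {k E D q V : ℕ} (hq : 0 < q) (hV : D * E = q * V) : Pd (b2 k E q) (D * q) := by
  intro t
  have e : nn E (t + D * q) = nn E t + q * (q * V) := by
    unfold nn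
    calc (t + D * q) * E + (E - 1) = t * E + (E - 1) + (D * E) * q := by ring
      _ = _ := by rw [hV]; ring
  unfold b2
  rw [e, Nat.add_mul_div_left _ _ hq, Nat.add_mul_mod_self_left]

theorem prod_union_le {S S' : Finset ℕ} (hS : ∀ p ∈ S, 0 < p) :
    ∏ p ∈ S ∪ S', p ≤ (∏ p ∈ S, p) * ∏ p ∈ S', p := by
  rw [← Finset.prod_union_inter]
  refine Nat.le_mul_of_pos_right _ ?_
  exact Finset.prod_pos fun p hp => hS p (Finset.mem_of_mem_inter_left hp)

end H41.GK
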