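import Pool.Agent.H41.GK.Core

/-!
# Existence of a good `t` in a short interval (MP_d5700b)
-/

set_option autoImplicit false

open Finset

namespace H41.GK

theorem fam_sum {k E T : ℕ} {A : Finset ℕ} {F : Finset (Finset ℕ)} (g : ℕ → ℝ)
    (m : Finset ℕ → Finset ℕ → ℝ) (Y : ℝ)
    (h : ∀ S ∈ F, ∀ S' ∈ F,
      |∑ t ∈ range T, term k E A S t * term k E A S' t * g t - T * m S S'| ≤ Y) :
    |∑ t ∈ range T, (∑ S ∈ F, term k E A S t) ^ 2 * g t - T * ∑ S ∈ F, ∑ S' ∈ F, m S S'| ≤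
      (F.card : ℝ) ^ 2 * Y := by
  have h1 : ∀ t, (∑ S ∈ F, term k E A S t) ^ 2 * g t =
      ∑ S ∈ F, ∑ S' ∈ F, term k E A S t * term k E A S' t * g t := by
    intro t
    rw [sq, Finset.sum_mul_sum, Finset.sum_mul]
    exact Finset.sum_congr rfl fun S _ => Finset.sum_mul _ _ _
  have h2 : ∑ t ∈ range T, (∑ S ∈ F, term k E A S t) ^ 2 * g t - T * ∑ S ∈ F, ∑ S' ∈ F, m S S' =
      ∑ S ∈ F, ∑ S' ∈ F,
        (∑ t ∈ range T, term k E A S t * term k E A S' t * g t - T * m S S') := by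
    simp only [h1]
    rw [Finset.sum_comm, Finset.mul_sum, ← Finset.sum_sub_distrib]
    refine Finset.sum_congr rfl fun S _ => ?_
    rw [Finset.sum_comm, Finset.mul_sum, ← Finset.sum_sub_distrib]
  rw [h2]
  refine (Finset.abs_sum_le_sum_abs _ _).trans ?_
  refine (Finset.sum_le_sum fun S hS => (Finset.abs_sum_le_sum_abs _ _).trans
    (Finset.sum_le_sum fun S' hS' => h S hS S' hS')).trans ?_
  simp only [Finset.sum_const, nsmul_eq_mul]
  apply le_of_eq
  ring

theorem exist {k E T : ℕ} {Z : ℝ} {A B : Finset ℕ} {F : Finset (Finset ℕ)} (hk : 1 ≤ k)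
    (hA : ∀ p ∈ A, p.Prime ∧ Nat.Coprime E p) (hAk : ∀ p ∈ A, p ≤ k ∧ k < p * p)
    (hB : ∀ p ∈ B, p.Prime ∧ ∃ E', E = p * E' ∧ Nat.Coprime E' p)
    (hBk : ∀ p ∈ B, p ≤ k ∧ k < p * p)
    (hAB : Disjoint A B) (hF : F ⊆ A.powerset) (hZ : 1 ≤ Z)
    (hFZ : ∀ S ∈ F, ((∏ p ∈ S, p : ℕ) : ℝ) ≤ Z)
    (hP : (A.card : ℝ) * (1 - ∑ S ∈ F, PP k A S) ≤ 1 / 8) (hP' : 7 / 8 ≤ ∑ S ∈ F, PP k A S)
    (hη : ∑ q ∈ A ∪ B, ((k / q : ℕ) : ℝ) / q ≤ 1 / 4)
    (hT : 24 * (F.card : ℝ) ^ 2 * Z ^ 2 * k ^ 3 < T * GG k A) :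
    ∃ t < T, (∀ q ∈ A, k % q ≤ nn E t % q) ∧ ∀ q ∈ A ∪ B, k / q ≤ (nn E t / q) % q := by
  have hApos : ∀ p ∈ A, 0 < p := fun p hp => (hA p hp).1.pos
  set R := ∏ p ∈ A, p with hR
  have hR0 : 0 < R := Finset.prod_pos hApos
  have hRR : (0 : ℝ) < R := by exact_mod_cast hR0
  have hkR : (1 : ℝ) ≤ k := by exact_mod_cast hk
  set PF := ∑ S ∈ F, PP k A S with hPF
  set G := GG k A with hG
  have hG0 : 0 ≤ G := Finset.prod_nonneg fun p hp => by linarith [dl_lt (k := k) (hApos p hp)]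
  have hsub : ∀ S ∈ F, S ⊆ A := fun S hS => Finset.mem_powerset.1 (hF hS)
  have hZ0 : 0 ≤ Z := by linarith
  -- sizes
  have hU : ∀ S ∈ F, ∀ S' ∈ F, ((∏ p ∈ S ∪ S', p : ℕ) : ℝ) ≤ Z ^ 2 := by
    intro S hS S' hS'
    have h1 : ((∏ p ∈ S ∪ S', p : ℕ) : ℝ) ≤ ((∏ p ∈ S, p : ℕ) : ℝ) * ((∏ p ∈ S', p : ℕ) : ℝ) := by
      exact_mod_cast prod_union_le (fun p hp => hApos p (hsub S hS hp))
    refine h1.trans ?_
    rw [sq]
    exact mul_le_mul (hFZ S hS) (hFZ S' hS') (Nat.cast_nonneg _) hZ0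
  have hins : ∀ (q : ℕ) (U : Finset ℕ), 0 < q → (∀ p ∈ U, 0 < p) →
      ∏ p ∈ insert q U, p ≤ q * ∏ p ∈ U, p := by
    intro q U hq hUp
    by_cases h : q ∈ U
    · rw [Finset.insert_eq_of_mem h]
      exact Nat.le_mul_of_pos_left _ hq
    · rw [Finset.prod_insert h]
  have hUpos : ∀ S ∈ F, ∀ S' ∈ F, ∀ p ∈ S ∪ S', p ∈ A := by
    intro S hS S' hS' p hp
    rcases Finset.mem_union.1 hp with h | h
    · exact hsub S hS h
    · exact hsub S' hS' h
  have hpd : ∀ S ∈ F, ∀ S' ∈ F, ∀ D : ℕ, (∀ p ∈ S ∪ S', p ∣ D) →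
      Pd (fun t => term k E A S t * term k E A S' t) D := by
    intro S hS S' hS' D hD
    exact (term_pd k E A S fun p hp => hD p (Finset.mem_union_left _ hp)).mul
      (term_pd k E A S' fun p hp => hD p (Finset.mem_union_right _ hp))
  have habs2 : ∀ S S' t, |term k E A S t * term k E A S' t| ≤ 1 := by
    intro S S' t
    rw [abs_mul]
    exact mul_le_one₀ (term_abs k E A S hApos t) (abs_nonneg _) (term_abs k E A S' hApos t)
  -- C1
  have C1 := fam_sum (k := k) (E := E) (T := T) (A := A) (F := F) (fun _ => 1)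
    (fun S S' => (∑ t ∈ range R, term k E A S t * term k E A S' t) / R) (2 * Z ^ 2) (by
      intro S hS S' hS'
      simp only [mul_one]
      have h1 := period_error (f := fun t => term k E A S t * term k E A S' t)
        (d := ∏ p ∈ S ∪ S', p) (R := R)
        (Finset.prod_pos fun p hp => hApos p (hUpos S hS S' hS' p hp))
        (hpd S hS S' hS' _ fun p hp => Finset.dvd_prod_of_mem (fun p => p) hp)
        (Finset.prod_dvd_prod_of_subset _ _ _ (hUpos S hS S' hS')) hR0 (habs2 S S') T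
      have h2 := hU S hS S' hS'
      linarith)
  have S1 : ∑ S ∈ F, ∑ S' ∈ F, (∑ t ∈ range R, term k E A S t * term k E A S' t) / (R : ℝ) =
      G * PF := by
    have h1 := fam_mean (k := k) (E := E) hA hF
    have h2 : ∀ t, (∑ S ∈ F, term k E A S t) ^ 2 =
        ∑ S ∈ F, ∑ S' ∈ F, term k E A S t * term k E A S' t := by
      intro t
      rw [sq, Finset.sum_mul_sum]
    simp only [h2] at h1
    rw [Finset.sum_comm] at h1
    have h3 : ∑ S ∈ F, ∑ S' ∈ F, ∑ t ∈ range R, term k E A S t * term k E A S' t =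
        (R : ℝ) * (G * PF) := by
      rw [← h1]
      exact Finset.sum_congr rfl fun S _ => Finset.sum_comm
    simp only [← Finset.sum_div]
    rw [h3]
    field_simp
  rw [S1] at C1
  simp only [mul_one] at C1
  -- C2
  have C2 : ∀ q ∈ A, ∑ t ∈ range T, (∑ S ∈ F, term k E A S t) ^ 2 * b1 k E q t ≤
      T * (G * (1 - PF)) + (F.card : ℝ) ^ 2 * (2 * (Z ^ 2 * k)) := by
    intro q hq
    have h0 := fam_sum (k := k) (E := E) (T := T) (A := A) (F := F) (b1 k E q)
      (fun S S' => (∑ t ∈ range R, term k E A S t * term k E A S' t * b1 k E q t) / R)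
      (2 * (Z ^ 2 * k)) (by
        intro S hS S' hS'
        have hD : ∀ p ∈ insert q (S ∪ S'), p ∈ A := by
          intro p hp
          rcases Finset.mem_insert.1 hp with h | h
          · rw [h]; exact hq
          · exact hUpos S hS S' hS' p h
        have h1 := period_error
          (f := fun t => term k E A S t * term k E A S' t * b1 k E q t)
          (d := ∏ p ∈ insert q (S ∪ S'), p) (R := R)
          (Finset.prod_pos fun p hp => hApos p (hD p hp))
          ((hpd S hS S' hS' _ fun p hp =>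
            Finset.dvd_prod_of_mem (fun p => p) (Finset.mem_insert_of_mem hp)).mul
            ((b1_pd k E q).of_dvd
              (Finset.dvd_prod_of_mem (fun p => p) (Finset.mem_insert_self q _))))
          (Finset.prod_dvd_prod_of_subset _ _ _ hD) hR0 (by
            intro t
            rw [abs_mul]
            refine mul_le_one₀ (habs2 S S' t) (abs_nonneg _) ?_
            rcases b1_zero_or k E q t with h | h <;> rw [h] <;> simp) T
        have h2 := hU S hS S' hS'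
        have h3 : ((∏ p ∈ insert q (S ∪ S'), p : ℕ) : ℝ) ≤ Z ^ 2 * k := by
          have h4 : ((∏ p ∈ insert q (S ∪ S'), p : ℕ) : ℝ) ≤
              (q : ℝ) * ((∏ p ∈ S ∪ S', p : ℕ) : ℝ) := by
            exact_mod_cast hins q (S ∪ S') (hApos q hq)
              (fun p hp => hApos p (hUpos S hS S' hS' p hp))
          have h5 : (q : ℝ) ≤ k := by exact_mod_cast (hAk q hq).1
          calc _ ≤ (q : ℝ) * ((∏ p ∈ S ∪ S', p : ℕ) : ℝ) := h4
            _ ≤ k * Z ^ 2 := mul_le_mul h5 h2 (Nat.cast_nonneg _) (by positivity)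
            _ = Z ^ 2 * k := mul_comm _ _
        linarith)
    have h1 := bad_mean (k := k) (E := E) hA hF hq
    have h2 : ∑ S ∈ F, ∑ S' ∈ F,
        (∑ t ∈ range R, term k E A S t * term k E A S' t * b1 k E q t) / (R : ℝ) =
        (∑ t ∈ range R, (∑ S ∈ F, term k E A S t) ^ 2 * b1 k E q t) / R := by
      simp only [← Finset.sum_div]
      congr 1
      have h3 : ∀ t, (∑ S ∈ F, term k E A S t) ^ 2 * b1 k E q t =
          ∑ S ∈ F, ∑ S' ∈ F, term k E A S t * term k E A S' t * b1 k E q t := by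
        intro t
        rw [sq, Finset.sum_mul_sum, Finset.sum_mul]
        exact Finset.sum_congr rfl fun S _ => Finset.sum_mul _ _ _
      simp only [h3]
      symm
      rw [Finset.sum_comm]
      exact Finset.sum_congr rfl fun S _ => Finset.sum_comm
    rw [h2] at h0
    have h4 : (∑ t ∈ range R, (∑ S ∈ F, term k E A S t) ^ 2 * b1 k E q t) / (R : ℝ) ≤
        G * (1 - PF) := by
      rw [div_le_iff₀ hRR]
      calc _ ≤ _ := h1
        _ = G * (1 - PF) * R := by ring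
    have h5 := (abs_le.1 h0).2
    have h6 : (T : ℝ) * ((∑ t ∈ range R, (∑ S ∈ F, term k E A S t) ^ 2 * b1 k E q t) / (R : ℝ)) ≤
        T * (G * (1 - PF)) := mul_le_mul_of_nonneg_left h4 (Nat.cast_nonneg _)
    linarith
  -- C3
  have hq0 : ∀ q ∈ A ∪ B, q.Prime ∧ q ≤ k ∧ k < q * q := by
    intro q hq
    rcases Finset.mem_union.1 hq with h | h
    · exact ⟨(hA q h).1, hAk q h⟩
    · exact ⟨(hB q h).1, hBk q h⟩
  have aux : ∀ q ∈ A ∪ B, ∀ S ∈ F, ∀ S' ∈ F, ∃ D V : ℕ, 0 < D ∧ D ∣ R ∧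
      (∀ p ∈ S ∪ S', p ∣ D) ∧ D * E = q * V ∧ Nat.Coprime V q ∧ (D : ℝ) ≤ Z ^ 2 * k := by
    intro q hq S hS S' hS'
    have hUA := hUpos S hS S' hS'
    rcases Finset.mem_union.1 hq with h | h
    · have hD : ∀ p ∈ insert q (S ∪ S'), p ∈ A := by
        intro p hp
        rcases Finset.mem_insert.1 hp with h' | h'
        · rw [h']; exact h
        · exact hUA p h'
      refine ⟨∏ p ∈ insert q (S ∪ S'), p, (∏ p ∈ (insert q (S ∪ S')).erase q, p) * E,
        Finset.prod_pos fun p hp => hApos p (hD p hp),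
        Finset.prod_dvd_prod_of_subset _ _ _ hD,
        fun p hp => Finset.dvd_prod_of_mem (fun p => p) (Finset.mem_insert_of_mem hp), ?_, ?_, ?_⟩
      · rw [← Finset.mul_prod_erase _ _ (Finset.mem_insert_self q (S ∪ S')), mul_assoc]
      · refine Nat.Coprime.mul_left ?_ (hA q h).2
        refine Nat.Coprime.prod_left fun p hp => ?_
        have hp' := Finset.mem_erase.1 hp
        exact (Nat.coprime_primes (hA p (hD p hp'.2)).1 (hA q h).1).2 hp'.1
      · have h2 := hU S hS S' hS'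
        have h4 : ((∏ p ∈ insert q (S ∪ S'), p : ℕ) : ℝ) ≤
            (q : ℝ) * ((∏ p ∈ S ∪ S', p : ℕ) : ℝ) := by
          exact_mod_cast hins q (S ∪ S') (hApos q h) (fun p hp => hApos p (hUA p hp))
        have h5 : (q : ℝ) ≤ k := by exact_mod_cast (hAk q h).1
        calc _ ≤ (q : ℝ) * ((∏ p ∈ S ∪ S', p : ℕ) : ℝ) := h4
          _ ≤ k * Z ^ 2 := mul_le_mul h5 h2 (Nat.cast_nonneg _) (by positivity)
          _ = Z ^ 2 * k := mul_comm _ _
    · obtain ⟨hqp, E', hE', hc⟩ := hB q h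
      refine ⟨∏ p ∈ S ∪ S', p, (∏ p ∈ S ∪ S', p) * E',
        Finset.prod_pos fun p hp => hApos p (hUA p hp),
        Finset.prod_dvd_prod_of_subset _ _ _ hUA,
        fun p hp => Finset.dvd_prod_of_mem (fun p => p) hp, ?_, ?_, ?_⟩
      · rw [hE']; ring
      · refine Nat.Coprime.mul_left ?_ hc
        refine Nat.Coprime.prod_left fun p hp => ?_
        refine (Nat.coprime_primes (hA p (hUA p hp)).1 hqp).2 ?_
        rintro rfl
        exact (Finset.disjoint_left.1 hAB) (hUA p hp) h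
      · have h2 := hU S hS S' hS'
        nlinarith [sq_nonneg Z]
  have C3 : ∀ q ∈ A ∪ B, ∑ t ∈ range T, (∑ S ∈ F, term k E A S t) ^ 2 * b2 k E q t ≤
      T * (((k / q : ℕ) : ℝ) / q * (G * PF)) + (F.card : ℝ) ^ 2 * (2 * (Z ^ 2 * k) * k) := by
    intro q hq
    obtain ⟨hqp, hqk, hkq⟩ := hq0 q hq
    have hqR : (0 : ℝ) < q := by exact_mod_cast hqp.pos
    have hkq' : k / q ≤ q := (Nat.div_lt_of_lt_mul hkq).le
    have h0 := fam_sum (k := k) (E := E) (T := T) (A := A) (F := F) (b2 k E q)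
      (fun S S' => ((k / q : ℕ) : ℝ) / q *
        ((∑ t ∈ range R, term k E A S t * term k E A S' t) / R))
      (2 * (Z ^ 2 * k) * k) (by
        intro S hS S' hS'
        obtain ⟨D, V, hD0, hDR, hDp, hDV, hVc, hDle⟩ := aux q hq S hS S' hS'
        have hpD := hpd S hS S' hS' D hDp
        have hDR0 : (0 : ℝ) < D := by exact_mod_cast hD0
        have h1 := period_error
          (f := fun t => term k E A S t * term k E A S' t * b2 k E q t)
          (d := D * q) (R := D * q) (Nat.mul_pos hD0 hqp.pos)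
          ((hpD.of_dvd (Dvd.intro _ rfl)).mul (b2_pd hqp.pos hDV)) (dvd_refl _)
          (Nat.mul_pos hD0 hqp.pos) (by
            intro t
            rw [abs_mul]
            refine mul_le_one₀ (habs2 S S' t) (abs_nonneg _) ?_
            rcases b2_zero_or k E q t with h | h <;> rw [h] <;> simp) T
        have h2 := sum_block (h := fun t => term k E A S t * term k E A S' t)
          (g := b2 k E q) (D := D) (q := q) (c := ((k / q : ℕ) : ℝ)) hpD
          (fun t₀ => second hqp.pos hkq' hDV hVc t₀)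
        rw [h2] at h1
        have h3 := mean_eq (h := fun t => term k E A S t * term k E A S' t) hpD hD0 hDR hR0
        rw [h3]
        have h4 : ((k / q : ℕ) : ℝ) * (∑ t ∈ range D, term k E A S t * term k E A S' t) /
            ((D * q : ℕ) : ℝ) = ((k / q : ℕ) : ℝ) / q *
            ((∑ t ∈ range D, term k E A S t * term k E A S' t) / D) := by
          push_cast
          field_simp
        rw [h4] at h1
        refine h1.trans ?_
        push_cast
        have h5 : (q : ℝ) ≤ k := by exact_mod_cast hqk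
        have h6 : (D : ℝ) * q ≤ Z ^ 2 * k * k :=
          mul_le_mul hDle h5 hqR.le (by positivity)
        linarith)
    have h1 : ∑ S ∈ F, ∑ S' ∈ F, ((k / q : ℕ) : ℝ) / q *
        ((∑ t ∈ range R, term k E A S t * term k E A S' t) / (R : ℝ)) =
        ((k / q : ℕ) : ℝ) / q * (G * PF) := by
      rw [← S1]
      simp only [Finset.mul_sum]
    rw [h1] at h0
    linarith [(abs_le.1 h0).2]
  -- contradiction
  by_contra hcon
  push Not at hcon
  have hpt : ∀ t ∈ range T, (∑ S ∈ F, term k E A S t) ^ 2 ≤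
      ∑ q ∈ A, (∑ S ∈ F, term k E A S t) ^ 2 * b1 k E q t +
      ∑ q ∈ A ∪ B, (∑ S ∈ F, term k E A S t) ^ 2 * b2 k E q t := by
    intro t ht
    rw [Finset.mem_range] at ht
    have n1 : ∀ q ∈ A, 0 ≤ (∑ S ∈ F, term k E A S t) ^ 2 * b1 k E q t := by
      intro q _
      refine mul_nonneg (sq_nonneg _) ?_
      rcases b1_zero_or k E q t with h | h <;> rw [h] <;> norm_num
    have n2 : ∀ q ∈ A ∪ B, 0 ≤ (∑ S ∈ F, term k E A S t) ^ 2 * b2 k E q t := by
      intro q _
      refine mul_nonneg (sq_nonneg _) ?_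
      rcases b2_zero_or k E q t with h | h <;> rw [h] <;> norm_num
    by_cases hfirst : ∀ q ∈ A, k % q ≤ nn E t % q
    · obtain ⟨q, hq, hlt⟩ := hcon t ht hfirst
      have h1 := Finset.single_le_sum n2 hq
      have h2 : b2 k E q t = 1 := if_pos hlt
      rw [h2, mul_one] at h1
      have h3 := Finset.sum_nonneg n1
      linarith
    · push Not at hfirst
      obtain ⟨q, hq, hlt⟩ := hfirst
      have h1 := Finset.single_le_sum n1 hq
      have h2 : b1 k E q t = 1 := if_pos hlt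
      rw [h2, mul_one] at h1
      have h3 := Finset.sum_nonneg n2
      linarith
  have htot := Finset.sum_le_sum hpt
  rw [Finset.sum_add_distrib] at htot
  have e1 : ∑ t ∈ range T, ∑ q ∈ A, (∑ S ∈ F, term k E A S t) ^ 2 * b1 k E q t ≤
      (A.card : ℝ) * (T * (G * (1 - PF)) + (F.card : ℝ) ^ 2 * (2 * (Z ^ 2 * k))) := by
    rw [Finset.sum_comm]
    refine (Finset.sum_le_sum C2).trans ?_
    rw [Finset.sum_const, nsmul_eq_mul]
  have e2 : ∑ t ∈ range T, ∑ q ∈ A ∪ B, (∑ S ∈ F, term k E A S t) ^ 2 * b2 k E q t ≤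
      T * (G * PF) * (1 / 4) + ((A ∪ B).card : ℝ) * ((F.card : ℝ) ^ 2 * (2 * (Z ^ 2 * k) * k)) := by
    rw [Finset.sum_comm]
    refine (Finset.sum_le_sum C3).trans ?_
    rw [Finset.sum_add_distrib, Finset.sum_const, nsmul_eq_mul]
    refine add_le_add ?_ le_rfl
    have : ∀ q ∈ A ∪ B, (T : ℝ) * (((k / q : ℕ) : ℝ) / q * (G * PF)) =
        T * (G * PF) * (((k / q : ℕ) : ℝ) / q) := fun q _ => by ring
    rw [Finset.sum_congr rfl this, ← Finset.mul_sum]
    refine mul_le_mul_of_nonneg_left hη ?_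
    have : 0 ≤ PF := by linarith
    positivity
  have cardle : ∀ U : Finset ℕ, (∀ q ∈ U, q.Prime ∧ q ≤ k ∧ k < q * q) → (U.card : ℝ) ≤ k := by
    intro U hUq
    have : U ⊆ Finset.Icc 1 k := fun q hq =>
      Finset.mem_Icc.2 ⟨(hUq q hq).1.pos, (hUq q hq).2.1⟩
    have h1 := Finset.card_le_card this
    rw [Nat.card_Icc, Nat.add_sub_cancel] at h1
    exact_mod_cast h1
  have cA := cardle A fun q hq => hq0 q (Finset.mem_union_left _ hq)
  have cAB := cardle (A ∪ B) hq0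
  have l1 := (abs_le.1 C1).1
  set X := (F.card : ℝ) ^ 2 * Z ^ 2 with hX
  have hX0 : 0 ≤ X := by positivity
  have f1 : (A.card : ℝ) * (T * (G * (1 - PF)) + (F.card : ℝ) ^ 2 * (2 * (Z ^ 2 * k))) ≤
      T * G * (1 / 8) + 2 * X * k ^ 2 := by
    have h1 : (A.card : ℝ) * (T * (G * (1 - PF))) ≤ T * G * (1 / 8) := by
      calc (A.card : ℝ) * (T * (G * (1 - PF))) = T * G * ((A.card : ℝ) * (1 - PF)) := by ring
        _ ≤ T * G * (1 / 8) := mul_le_mul_of_nonneg_left hP (by positivity)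
    have h2 : (A.card : ℝ) * ((F.card : ℝ) ^ 2 * (2 * (Z ^ 2 * k))) ≤ 2 * X * k ^ 2 := by
      calc (A.card : ℝ) * ((F.card : ℝ) ^ 2 * (2 * (Z ^ 2 * k))) = (A.card : ℝ) * (2 * X * k) := by
            rw [hX]; ring
        _ ≤ k * (2 * X * k) := mul_le_mul_of_nonneg_right cA (by positivity)
        _ = 2 * X * k ^ 2 := by ring
    linarith
  have f2 : ((A ∪ B).card : ℝ) * ((F.card : ℝ) ^ 2 * (2 * (Z ^ 2 * k) * k)) ≤ 2 * X * k ^ 3 := by
    calc ((A ∪ B).card : ℝ) * ((F.card : ℝ) ^ 2 * (2 * (Z ^ 2 * k) * k)) =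
          ((A ∪ B).card : ℝ) * (2 * X * k ^ 2) := by rw [hX]; ring
      _ ≤ k * (2 * X * k ^ 2) := mul_le_mul_of_nonneg_right cAB (by positivity)
      _ = 2 * X * k ^ 3 := by ring
  have f3 : (F.card : ℝ) ^ 2 * (2 * Z ^ 2) = 2 * X := by rw [hX]; ring
  rw [f3] at l1
  have hT' : 24 * (X * k ^ 3) < T * G := by
    calc 24 * (X * (k : ℝ) ^ 3) = 24 * (F.card : ℝ) ^ 2 * Z ^ 2 * k ^ 3 := by rw [hX]; ring
      _ < _ := hT
  have hk2 : X ≤ X * k ^ 3 := le_mul_of_one_le_right hX0 (one_le_pow₀ hkR)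
  have hk3 : X * (k : ℝ) ^ 2 ≤ X * k ^ 3 :=
    mul_le_mul_of_nonneg_left (pow_le_pow_right₀ hkR (by norm_num)) hX0
  have hTG : 0 ≤ (T : ℝ) * G := by positivity
  have hPF2 : (T : ℝ) * G * (7 / 8) ≤ T * (G * PF) := by
    calc (T : ℝ) * G * (7 / 8) ≤ T * G * PF := mul_le_mul_of_nonneg_left hP' hTG
      _ = _ := by ring
  nlinarith [htot, e1, e2, f1, f2, l1, hT', hk2, hk3, hPF2]

end H41.GK
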