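import Pool.Agent.H41.GK.Asym

/-!
# The sieve bound for the least `n` (MP_d5700b)
-/

set_option autoImplicit false

open Finset Filter Topology

namespace H41.GK

lemma lucas_step {p n k : ℕ} (hp : p.Prime) (h1 : k % p ≤ n % p)
    (h2 : ¬ p ∣ (n / p).choose (k / p)) : ¬ p ∣ n.choose k := by
  have : Fact p.Prime := ⟨hp⟩
  have h := Choose.choose_modEq_choose_mod_mul_choose_div_nat (n := n) (k := k) (p := p)
  intro hd
  have h3 : p ∣ (n % p).choose (k % p) * (n / p).choose (k / p) := (h.dvd_iff (dvd_refl p)).1 hd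
  rcases hp.dvd_mul.1 h3 with h4 | h4
  · have h5 : p ∣ (n % p).factorial := by
      rw [← Nat.choose_mul_factorial_mul_factorial h1]
      exact (h4.mul_right _).mul_right _
    have h6 := (hp.dvd_factorial).1 h5
    have := Nat.mod_lt n hp.pos
    omega
  · exact h2 h4

lemma digit_full {p : ℕ} (hp : p.Prime) : ∀ (e n k t : ℕ), n + 1 = p ^ e * t → k < p ^ e →
    ¬ p ∣ n.choose k := by
  intro e
  induction e with
  | zero =>
    intro n k t _ hk
    have : k = 0 := by simpa using hk
    subst this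
    rw [Nat.choose_zero_right]
    exact fun h => absurd (Nat.le_of_dvd one_pos h) (by have := hp.one_lt; omega)
  | succ e ih =>
    intro n k t hn hk
    set q := p ^ e * t with hq
    have hn' : n + 1 = p * q := by rw [hn, hq, pow_succ]; ring
    have hq0 : 0 < q := by
      rcases Nat.eq_zero_or_pos q with h | h
      · rw [h, mul_zero] at hn'; omega
      · exact h
    obtain ⟨q', hq'⟩ : ∃ q', q = q' + 1 := ⟨q - 1, by omega⟩
    have hp0 := hp.pos
    have hp1 := hp.one_lt
    have hn2 : n = p * q' + (p - 1) := by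
      rw [hq', mul_add, mul_one] at hn'
      omega
    have hmod : n % p = p - 1 := by
      rw [hn2, Nat.mul_add_mod, Nat.mod_eq_of_lt (by omega)]
    have hdiv : n / p = q' := by
      rw [hn2, Nat.mul_add_div hp0, Nat.div_eq_of_lt (by omega), add_zero]
    apply lucas_step hp
    · rw [hmod]
      have := Nat.mod_lt k hp0
      omega
    · apply ih (n / p) (k / p) t
      · rw [hdiv, ← hq', hq]
      · apply Nat.div_lt_of_lt_mul
        rw [pow_succ, mul_comm] at hk
        exact hk

lemma digit_two {p n k : ℕ} (hp : p.Prime) (hk : k < p * p) (h1 : k % p ≤ n % p)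
    (h2 : k / p ≤ (n / p) % p) : ¬ p ∣ n.choose k := by
  have h3 : k / p < p := Nat.div_lt_of_lt_mul hk
  apply lucas_step hp h1
  apply lucas_step hp
  · rw [Nat.mod_eq_of_lt h3]
    exact h2
  · rw [Nat.div_eq_of_lt h3, Nat.choose_zero_right]
    exact fun h => absurd (Nat.le_of_dvd one_pos h) (by have := hp.one_lt; omega)

/-- all conditions for large `k` -/
theorem params (ε δ : ℝ) (hε : 0 < ε) (hε1 : ε ≤ 1) (hδ : 0 < δ) (hδ1 : δ ≤ 1) :
    ∀ᶠ k : ℕ in atTop,
      3 ≤ ⌊δ * k⌋₊ ∧ 3 ≤ k ∧ k < (⌊δ * k⌋₊ + 1) * (⌊δ * k⌋₊ + 1) ∧ 1 ≤ Real.log k ∧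
      (Nat.primeCounting k : ℝ) ≤ δ ^ 2 / 4 * k ∧
      2 * (Nat.primeCounting ⌊δ * k⌋₊ : ℝ) * Real.log k ≤ 16 * δ * k ∧
      (k : ℝ) * Real.exp (-(ε ^ 2 / 8 * (k / Real.log k))) ≤ 1 / 8 ∧
      Real.log 25 + Nat.primeCounting k * Real.log 8 + 3 * Real.log k ≤ ε * k := by
  obtain ⟨N, hN⟩ := pi_log
  have t1 : Tendsto (fun k : ℕ => (k : ℝ)) atTop atTop := tendsto_natCast_atTop_atTop
  have t2 : Tendsto (fun k : ℕ => Real.log k) atTop atTop := Real.tendsto_log_atTop.comp t1
  have a1 : ∀ᶠ x : ℝ in atTop, Real.log x ≤ (ε / 24) * x := by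
    have := Real.isLittleO_log_id_atTop.bound (show (0 : ℝ) < ε / 24 by positivity)
    filter_upwards [this, eventually_ge_atTop 1] with x hx hx1
    rw [Real.norm_eq_abs, Real.norm_eq_abs, id] at hx
    rw [abs_of_nonneg (Real.log_nonneg hx1), abs_of_nonneg (by linarith)] at hx
    exact hx
  have a2 : ∀ᶠ x : ℝ in atTop, Real.log x ^ 2 ≤ (ε ^ 2 / 32) * x := by
    have := (Real.isLittleO_pow_log_id_atTop (n := 2)).bound
      (show (0 : ℝ) < ε ^ 2 / 32 by positivity)
    filter_upwards [this, eventually_ge_atTop 1] with x hx hx1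
    rw [Real.norm_eq_abs, Real.norm_eq_abs, id] at hx
    rw [abs_of_nonneg (by positivity), abs_of_nonneg (by linarith)] at hx
    exact hx
  have hδ2 : δ ^ 2 ≤ δ := by nlinarith
  filter_upwards [t1.eventually_ge_atTop (16 / δ ^ 2), t1.eventually_ge_atTop (2 * N / δ),
    t1.eventually_ge_atTop (64 / ε), eventually_ge_atTop N, eventually_ge_atTop 3,
    t2.eventually_ge_atTop (16 / δ ^ 2), t2.eventually_ge_atTop (32 / ε),
    t2.eventually_ge_atTop 3, t1.eventually a1, t1.eventually a2]
    with k h1 h2 h3 h4 h5 h6 h7 h8 h9 h10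
  have hk0 : (0 : ℝ) < k := by exact_mod_cast (by omega : 0 < k)
  have hl0 : 0 < Real.log k := by linarith
  have hδk : 16 ≤ δ * k := by
    rw [div_le_iff₀ (by positivity)] at h1
    nlinarith
  have hδ2k : 16 ≤ δ ^ 2 * k := by
    rw [div_le_iff₀ (by positivity)] at h1
    linarith
  set Y := ⌊δ * (k : ℝ)⌋₊ with hY
  have hYle : (Y : ℝ) ≤ δ * k := Nat.floor_le (by positivity)
  have hYlt : δ * k < Y + 1 := Nat.lt_floor_add_one _
  have hYhalf : δ * k / 2 ≤ Y := by linarith
  have hY3 : 3 ≤ Y := by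
    have : (8 : ℝ) ≤ Y := by linarith
    have : 8 ≤ Y := by exact_mod_cast this
    omega
  have hYN : N ≤ Y := by
    rw [div_le_iff₀ hδ] at h2
    have : (N : ℝ) ≤ Y := by linarith
    exact_mod_cast this
  have hpk := hN k h4
  have hpY := hN Y hYN
  have hY0 : (0 : ℝ) < Y := by linarith
  refine ⟨hY3, h5, ?_, by linarith, ?_, ?_, ?_, ?_⟩
  · have : (k : ℝ) < (Y + 1) * (Y + 1) := by
      have e1 : (δ * k) * (δ * k) < ((Y : ℝ) + 1) * (Y + 1) :=
        mul_lt_mul'' hYlt hYlt (by positivity) (by positivity)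
      have e2 : (k : ℝ) ≤ (δ * k) * (δ * k) := by nlinarith
      linarith
    exact_mod_cast this
  · rw [div_le_iff₀ (by positivity)] at h6
    have hpi : (0 : ℝ) ≤ Nat.primeCounting k := Nat.cast_nonneg _
    have e1 : (Nat.primeCounting k : ℝ) * 16 ≤ δ ^ 2 * (4 * k) := by
      calc (Nat.primeCounting k : ℝ) * 16 ≤ Nat.primeCounting k * (Real.log k * δ ^ 2) :=
            mul_le_mul_of_nonneg_left h6 hpi
        _ = δ ^ 2 * (Nat.primeCounting k * Real.log k) := by ring
        _ ≤ δ ^ 2 * (4 * k) := mul_le_mul_of_nonneg_left hpk (by positivity)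
    linarith
  · have e1 : Real.log k ≤ 2 * Real.log Y := by
      rw [show (2 : ℝ) * Real.log Y = Real.log ((Y : ℝ) ^ 2) by rw [Real.log_pow]; norm_num]
      apply Real.log_le_log hk0
      have : (δ * k / 2) * (δ * k / 2) ≤ (Y : ℝ) * Y :=
        mul_le_mul hYhalf hYhalf (by positivity) hY0.le
      nlinarith
    have hpi : (0 : ℝ) ≤ Nat.primeCounting Y := Nat.cast_nonneg _
    calc 2 * (Nat.primeCounting Y : ℝ) * Real.log k
        ≤ 2 * (Nat.primeCounting Y : ℝ) * (2 * Real.log Y) :=
          mul_le_mul_of_nonneg_left e1 (by positivity)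
      _ = 4 * (Nat.primeCounting Y * Real.log Y) := by ring
      _ ≤ 4 * (4 * Y) := mul_le_mul_of_nonneg_left hpY (by norm_num)
      _ ≤ 16 * δ * k := by linarith
  · have e1 : Real.log 8 ≤ 3 := by
      have : Real.log 8 = 3 * Real.log 2 := by
        rw [show (8 : ℝ) = 2 ^ 3 by norm_num, Real.log_pow]; norm_num
      rw [this]; linarith [Real.log_two_lt_d9]
    have e2 : Real.log k + Real.log 8 ≤ ε ^ 2 / 8 * (k / Real.log k) := by
      rw [← mul_div_assoc, le_div_iff₀ hl0]
      nlinarith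
    have e3 : (k : ℝ) * Real.exp (-(ε ^ 2 / 8 * (k / Real.log k))) ≤
        k * Real.exp (-(Real.log k + Real.log 8)) :=
      mul_le_mul_of_nonneg_left (Real.exp_le_exp.2 (by linarith)) hk0.le
    refine e3.trans (le_of_eq ?_)
    rw [neg_add, Real.exp_add, Real.exp_neg, Real.exp_neg, Real.exp_log hk0,
      Real.exp_log (by norm_num)]
    field_simp
  · have e1 : Real.log 8 ≤ 2.1 := by
      have : Real.log 8 = 3 * Real.log 2 := by
        rw [show (8 : ℝ) = 2 ^ 3 by norm_num, Real.log_pow]; norm_num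
      rw [this]; linarith [Real.log_two_lt_d9]
    have e2 : Real.log 25 ≤ 4.2 := by
      have : Real.log 25 ≤ Real.log 64 := Real.log_le_log (by norm_num) (by norm_num)
      have h64 : Real.log 64 = 6 * Real.log 2 := by
        rw [show (64 : ℝ) = 2 ^ 6 by norm_num, Real.log_pow]; norm_num
      linarith [Real.log_two_lt_d9]
    have hpi : (0 : ℝ) ≤ Nat.primeCounting k := Nat.cast_nonneg _
    rw [div_le_iff₀ hε] at h7 h3
    have e3 : (Nat.primeCounting k : ℝ) * 32 ≤ ε * (4 * k) := by
      calc (Nat.primeCounting k : ℝ) * 32 ≤ Nat.primeCounting k * (Real.log k * ε) :=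
            mul_le_mul_of_nonneg_left h7 hpi
        _ = ε * (Nat.primeCounting k * Real.log k) := by ring
        _ ≤ ε * (4 * k) := mul_le_mul_of_nonneg_left hpk hε.le
    have e4 : (Nat.primeCounting k : ℝ) * Real.log 8 ≤ Nat.primeCounting k * 2.1 :=
      mul_le_mul_of_nonneg_left e1 hpi
    have hεk : 0 < ε * k := by positivity
    nlinarith

theorem exists_n (ε : ℝ) (hε : 0 < ε) : ∃ k₀ : ℕ, ∀ k : ℕ, k₀ ≤ k → ∃ n : ℕ, k + 2 ≤ n ∧
    (∀ p : ℕ, p.Prime → p ≤ k → ¬ p ∣ n.choose k) ∧
    Real.log n ≤ ∑ p ∈ PK k, min 1 (2 * Int.fract ((k : ℝ) / p)) * Real.log p + ε * k := by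
  set ε₁ := min ε 1 with hε₁
  have hε₁0 : 0 < ε₁ := lt_min hε one_pos
  have hε₁1 : ε₁ ≤ 1 := min_le_right _ _
  have hε₁ε : ε₁ ≤ ε := min_le_left _ _
  set e := ε₁ / 8 with he
  set δ := ε₁ / 64 with hδ
  have he0 : 0 < e := by positivity
  have hδ0 : 0 < δ := by positivity
  obtain ⟨k₀, hk₀⟩ := eventually_atTop.1 (params e δ he0 (by linarith) hδ0 (by linarith))
  refine ⟨k₀, fun k hk => ?_⟩
  obtain ⟨hY3, hk3, hYk, hlogk, c3, c4, c5, c6⟩ := hk₀ k hk
  set Y := ⌊δ * (k : ℝ)⌋₊ with hY
  have hYlt : δ * k < Y + 1 := Nat.lt_floor_add_one _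
  have hk0 : (0 : ℝ) < k := by exact_mod_cast (by omega : 0 < k)
  set A := AA Y k with hAdef
  set B := BB Y k with hBdef
  set E := EE Y k with hEdef
  have hA : ∀ p ∈ A, p.Prime ∧ Nat.Coprime E p := fun p hp => ⟨(mem_AA.1 hp).1, EE_coprime hp⟩
  have hsq : ∀ p, Y < p → k < p * p := by
    intro p hp
    exact hYk.trans_le (Nat.mul_le_mul hp hp)
  have hAk : ∀ p ∈ A, p ≤ k ∧ k < p * p := fun p hp =>
    ⟨(mem_AA.1 hp).2.1, hsq p (mem_AA.1 hp).2.2.1⟩
  have hB : ∀ p ∈ B, p.Prime ∧ ∃ E', E = p * E' ∧ Nat.Coprime E' p := fun p hp =>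
    ⟨(mem_BB.1 hp).1, EE_split hp⟩
  have hBk : ∀ p ∈ B, p ≤ k ∧ k < p * p := fun p hp =>
    ⟨(mem_BB.1 hp).2.1, hsq p (mem_BB.1 hp).2.2.1⟩
  have hAB : Disjoint A B := by
    rw [Finset.disjoint_left]
    intro p h1 h2
    have := (mem_AA.1 h1).2.2.2
    have := (mem_BB.1 h2).2.2.2
    omega
  have hApos : ∀ p ∈ A, 0 < p := fun p hp => (hA p hp).1.pos
  have hAlog : ∀ p ∈ A, 0 ≤ Real.log p ∧ Real.log p ≤ Real.log k := by
    intro p hp
    exact ⟨Real.log_natCast_nonneg p, Real.log_le_log (by exact_mod_cast hApos p hp)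
      (by exact_mod_cast (hAk p hp).1)⟩
  have hAsub : A ⊆ PK k := Finset.filter_subset _ _
  have hBsub : B ⊆ PK k := Finset.filter_subset _ _
  have hAcard : A.card ≤ Nat.primeCounting k := by
    rw [← card_PK]; exact Finset.card_le_card hAsub
  have hPKk : (PK k).card ≤ k := by
    have : PK k ⊆ Finset.Icc 1 k := Finset.filter_subset _ _
    have h1 := Finset.card_le_card this
    rwa [Nat.card_Icc, Nat.add_sub_cancel] at h1
  have hAcardk : (A.card : ℝ) ≤ k := by exact_mod_cast (Finset.card_le_card hAsub).trans hPKk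
  set SD := ∑ p ∈ A, dl k p * Real.log p with hSD
  have hSD0 : 0 ≤ SD := Finset.sum_nonneg fun p hp => mul_nonneg (dl_nonneg k p) (hAlog p hp).1
  set L := SD + e * k with hL
  have hL0 : 0 ≤ L := by positivity
  set F := A.powerset.filter (fun S : Finset ℕ => ∑ p ∈ S, Real.log (p : ℝ) ≤ L) with hF
  have hFsub : F ⊆ A.powerset := Finset.filter_subset _ _
  have hFZ : ∀ S ∈ F, ((∏ p ∈ S, p : ℕ) : ℝ) ≤ Real.exp L := by
    intro S hS
    obtain ⟨hS1, hS2⟩ := mem_filter.1 hS
    rw [mem_powerset] at hS1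
    have h1 : ((∏ p ∈ S, p : ℕ) : ℝ) = Real.exp (∑ p ∈ S, Real.log p) := by
      rw [Real.exp_sum]
      push_cast
      refine Finset.prod_congr rfl fun p hp => ?_
      rw [Real.exp_log]
      exact_mod_cast hApos p (hS1 hp)
    rw [h1]
    exact Real.exp_le_exp.2 hS2
  -- tail
  set s := e / (4 * Real.log k) with hs
  have hs0 : 0 < s := by positivity
  have htail : 1 - ∑ S ∈ F, PP k A S ≤ Real.exp (-(e ^ 2 / 8 * (k / Real.log k))) := by
    have h1 := chernoff k A hApos (fun p => s * Real.log p) (by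
      intro p hp
      refine ⟨mul_nonneg hs0.le (hAlog p hp).1, ?_⟩
      have h1 : s * Real.log p ≤ s * Real.log k :=
        mul_le_mul_of_nonneg_left (hAlog p hp).2 hs0.le
      have h2 : s * Real.log k = e / 4 := by
        rw [hs]; field_simp
      linarith) (s * L)
    have h2 : 1 - ∑ S ∈ F, PP k A S =
        ∑ S ∈ A.powerset.filter (fun S : Finset ℕ => s * L < ∑ p ∈ S, s * Real.log (p : ℝ)), PP k A S := by
      have h3 := Finset.sum_filter_add_sum_filter_not A.powerset
        (fun S : Finset ℕ => ∑ p ∈ S, Real.log (p : ℝ) ≤ L) (PP k A)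
      rw [PP_sum] at h3
      have h4 : A.powerset.filter (fun S : Finset ℕ => ¬ ∑ p ∈ S, Real.log (p : ℝ) ≤ L) =
          A.powerset.filter (fun S : Finset ℕ => s * L < ∑ p ∈ S, s * Real.log (p : ℝ)) := by
        apply Finset.filter_congr
        intro S _
        rw [not_le, ← Finset.mul_sum]
        exact (mul_lt_mul_iff_right₀ hs0).symm
      rw [← h4]
      linarith
    rw [h2]
    refine h1.trans (Real.exp_le_exp.2 ?_)
    have h5 : ∑ p ∈ A, (dl k p * (s * Real.log p) + dl k p * (s * Real.log p) ^ 2) ≤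
        s * SD + s ^ 2 * (Real.log k * (1.4 * k)) := by
      rw [Finset.sum_add_distrib]
      refine add_le_add (le_of_eq ?_) ?_
      · rw [hSD, Finset.mul_sum]
        exact Finset.sum_congr rfl fun p _ => by ring
      · have h6 : ∀ p ∈ A, dl k p * (s * Real.log p) ^ 2 ≤ s ^ 2 * Real.log k * Real.log p := by
          intro p hp
          obtain ⟨l0, l1⟩ := hAlog p hp
          have d0 := dl_nonneg k p
          have d1 := (dl_lt (k := k) (hApos p hp)).le
          calc dl k p * (s * Real.log p) ^ 2 = s ^ 2 * (dl k p * (Real.log p * Real.log p)) := by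
                ring
            _ ≤ s ^ 2 * (1 * (Real.log k * Real.log p)) := by
                refine mul_le_mul_of_nonneg_left ?_ (by positivity)
                refine mul_le_mul d1 (mul_le_mul_of_nonneg_right l1 l0) (by positivity)
                  zero_le_one
            _ = s ^ 2 * Real.log k * Real.log p := by ring
        refine (Finset.sum_le_sum h6).trans ?_
        rw [← Finset.mul_sum]
        have h7 : ∑ p ∈ A, Real.log p ≤ 1.4 * k :=
          (Finset.sum_le_sum_of_subset_of_nonneg hAsub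
            (fun p _ _ => Real.log_natCast_nonneg p)).trans (theta_PK k)
        calc s ^ 2 * Real.log k * ∑ p ∈ A, Real.log p ≤ s ^ 2 * Real.log k * (1.4 * k) :=
              mul_le_mul_of_nonneg_left h7 (by positivity)
          _ = _ := by ring
    have h8 : -(s * L) + (s * SD + s ^ 2 * (Real.log k * (1.4 * k))) =
        -(e ^ 2 * (k / Real.log k) * (1 / 4 - 1.4 / 16)) := by
      rw [hL, hs]
      field_simp
      ring
    have h9 : 0 ≤ e ^ 2 * (k / Real.log k) := by positivity
    linarith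
  have htail2 : (k : ℝ) * (1 - ∑ S ∈ F, PP k A S) ≤ 1 / 8 :=
    (mul_le_mul_of_nonneg_left htail hk0.le).trans c5
  have htail0 : 0 ≤ 1 - ∑ S ∈ F, PP k A S := by
    have h1 := Finset.sum_le_sum_of_subset_of_nonneg hFsub
      (fun S _ _ => PP_nonneg k A S hApos)
    rw [PP_sum] at h1
    linarith
  have hk1 : (1 : ℝ) ≤ k := by exact_mod_cast (by omega : 1 ≤ k)
  have hP : (A.card : ℝ) * (1 - ∑ S ∈ F, PP k A S) ≤ 1 / 8 :=
    (mul_le_mul_of_nonneg_right hAcardk htail0).trans htail2
  have hP' : 7 / 8 ≤ ∑ S ∈ F, PP k A S := by nlinarith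
  have hη : ∑ q ∈ A ∪ B, ((k / q : ℕ) : ℝ) / q ≤ 1 / 4 := by
    have h1 : ∀ q ∈ A ∪ B, ((k / q : ℕ) : ℝ) / q ≤ 1 / (δ ^ 2 * k) := by
      intro q hq
      have hYq : Y < q := by
        rcases Finset.mem_union.1 hq with h | h
        · exact (mem_AA.1 h).2.2.1
        · exact (mem_BB.1 h).2.2.1
      have hq1 : (Y : ℝ) + 1 ≤ q := by exact_mod_cast hYq
      have hq2 : δ * k < q := lt_of_lt_of_le hYlt hq1
      have hδk : 0 < δ * k := by positivity
      have hq0 : (0 : ℝ) < q := hδk.trans hq2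
      have h2 : ((k / q : ℕ) : ℝ) ≤ k / q := Nat.cast_div_le
      calc ((k / q : ℕ) : ℝ) / q ≤ k / q / q := div_le_div_of_nonneg_right h2 hq0.le
        _ = k / (q * q) := by rw [div_div]
        _ ≤ k / ((δ * k) * (δ * k)) := by
            apply div_le_div_of_nonneg_left hk0.le (by positivity)
            exact mul_le_mul hq2.le hq2.le hδk.le hq0.le
        _ = 1 / (δ ^ 2 * k) := by field_simp
    refine (Finset.sum_le_sum h1).trans ?_
    rw [Finset.sum_const, nsmul_eq_mul]
    have h2 : ((A ∪ B).card : ℝ) ≤ Nat.primeCounting k := by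
      rw [← card_PK]
      exact_mod_cast Finset.card_le_card (Finset.union_subset hAsub hBsub)
    have h3 : ((A ∪ B).card : ℝ) ≤ δ ^ 2 / 4 * k := h2.trans c3
    rw [mul_one_div, div_le_iff₀ (by positivity)]
    linarith
  -- size of `T`
  have hGpos : 0 < GG k A := Finset.prod_pos fun p hp => by linarith [dl_lt (k := k) (hApos p hp)]
  have hGlow : (1 / 2 : ℝ) ^ Nat.primeCounting k ≤ GG k A := by
    have h1 : (1 / 2 : ℝ) ^ A.card ≤ GG k A := by
      unfold GG
      rw [← Finset.prod_const]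
      refine Finset.prod_le_prod (fun _ _ => by norm_num) fun p hp => ?_
      have h2 := (mem_AA.1 hp).2.2.2
      have hp0 : (0 : ℝ) < p := by exact_mod_cast hApos p hp
      have h3 : dl k p ≤ 1 / 2 := by
        unfold dl
        rw [div_le_iff₀ hp0]
        have : (2 : ℝ) * (k % p : ℕ) < p := by exact_mod_cast h2
        linarith
      linarith
    refine le_trans ?_ h1
    exact pow_le_pow_of_le_one (by norm_num) (by norm_num) hAcard
  have hFcard : (F.card : ℝ) ≤ 2 ^ Nat.primeCounting k := by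
    have h1 : F.card ≤ 2 ^ A.card := by
      rw [← Finset.card_powerset]; exact Finset.card_le_card hFsub
    have h2 : 2 ^ A.card ≤ 2 ^ Nat.primeCounting k := Nat.pow_le_pow_right (by norm_num) hAcard
    exact_mod_cast h1.trans h2
  set X := 24 * (F.card : ℝ) ^ 2 * Real.exp L ^ 2 * k ^ 3 with hX
  have hX0 : 0 ≤ X := by positivity
  set T := ⌊X / GG k A⌋₊ + 1 with hT
  have hT1 : X < T * GG k A := by
    have h1 : X / GG k A < T := by
      rw [hT]; push_cast; exact Nat.lt_floor_add_one _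
    rwa [div_lt_iff₀ hGpos] at h1
  obtain ⟨t, htT, hfirst, hsecond⟩ := exist (by omega) hA hAk hB hBk hAB hFsub
    (Real.one_le_exp hL0) hFZ hP hP' hη hT1
  have hE0 : 0 < E := EE_pos Y k
  have hn1 : nn E t + 1 = (t + 1) * E := by
    unfold nn
    have : (t + 1) * E = t * E + E := by ring
    omega
  have hE3 : k + 3 ≤ E := EE_gt hY3 hk3
  have hnlow : k + 2 ≤ nn E t := by
    have : E ≤ (t + 1) * E := Nat.le_mul_of_pos_left _ (by omega)
    omega
  refine ⟨nn E t, hnlow, ?_, ?_⟩
  · intro p hp hpk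
    by_cases hpY : p ≤ Y
    · obtain ⟨u, hu⟩ := EE_dvd (mem_CC.2 ⟨hp, hpk, hpY⟩)
      refine digit_full hp (Nat.log p k + 1) (nn E t) k ((t + 1) * u) ?_
        (Nat.lt_pow_succ_log_self hp.one_lt k)
      rw [hn1, hEdef, hu]
      ring
    · push Not at hpY
      by_cases hcase : 2 * (k % p) < p
      · have hpA : p ∈ A := mem_AA.2 ⟨hp, hpk, hpY, hcase⟩
        exact digit_two hp (hsq p hpY) (hfirst p hpA) (hsecond p (Finset.mem_union_left _ hpA))
      · have hpB : p ∈ B := mem_BB.2 ⟨hp, hpk, hpY, by omega⟩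
        refine digit_two hp (hsq p hpY) ?_ (hsecond p (Finset.mem_union_right _ hpB))
        obtain ⟨E', hE', _⟩ := EE_split hpB
        have h1 : nn E t + 1 = p * ((t + 1) * E') := by
          rw [hn1, hEdef, hE']; ring
        have h2 : 0 < (t + 1) * E' := by
          rcases Nat.eq_zero_or_pos ((t + 1) * E') with h | h
          · rw [h, mul_zero] at h1; omega
          · exact h
        obtain ⟨w, hw⟩ : ∃ w, (t + 1) * E' = w + 1 := ⟨(t + 1) * E' - 1, by omega⟩
        have hp1 := hp.one_lt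
        have h3 : nn E t = p * w + (p - 1) := by
          rw [hw, mul_add, mul_one] at h1
          omega
        have h4 : nn E t % p = p - 1 := by
          rw [h3, Nat.mul_add_mod, Nat.mod_eq_of_lt (by omega)]
        rw [h4]
        have := Nat.mod_lt k hp.pos
        omega
  · -- size
    have hTle : (T : ℝ) ≤ 25 * 8 ^ Nat.primeCounting k * Real.exp L ^ 2 * k ^ 3 := by
      have h1 : (T : ℝ) ≤ X / GG k A + 1 := by
        rw [hT]; push_cast
        linarith [Nat.floor_le (div_nonneg hX0 hGpos.le)]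
      have h2 : X / GG k A ≤ 24 * 8 ^ Nat.primeCounting k * Real.exp L ^ 2 * k ^ 3 := by
        rw [div_le_iff₀ hGpos]
        have h3 : (F.card : ℝ) ^ 2 ≤ 4 ^ Nat.primeCounting k := by
          calc (F.card : ℝ) ^ 2 ≤ (2 ^ Nat.primeCounting k) ^ 2 :=
                pow_le_pow_left₀ (Nat.cast_nonneg _) hFcard 2
            _ = 4 ^ Nat.primeCounting k := by
                rw [← pow_mul, mul_comm, pow_mul]; norm_num
        have h4 : (4 : ℝ) ^ Nat.primeCounting k =
            8 ^ Nat.primeCounting k * (1 / 2) ^ Nat.primeCounting k := by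
          rw [← mul_pow]; norm_num
        have h5 : (F.card : ℝ) ^ 2 ≤ 8 ^ Nat.primeCounting k * GG k A := by
          rw [h4] at h3
          exact h3.trans (mul_le_mul_of_nonneg_left hGlow (by positivity))
        calc X = (24 * Real.exp L ^ 2 * k ^ 3) * (F.card : ℝ) ^ 2 := by rw [hX]; ring
          _ ≤ (24 * Real.exp L ^ 2 * k ^ 3) * (8 ^ Nat.primeCounting k * GG k A) :=
              mul_le_mul_of_nonneg_left h5 (by positivity)
          _ = _ := by ring
      have h6 : (1 : ℝ) ≤ 8 ^ Nat.primeCounting k * Real.exp L ^ 2 * k ^ 3 := by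
        have a1 : (1 : ℝ) ≤ 8 ^ Nat.primeCounting k := one_le_pow₀ (by norm_num)
        have a2 : (1 : ℝ) ≤ Real.exp L ^ 2 := one_le_pow₀ (Real.one_le_exp hL0)
        have a3 : (1 : ℝ) ≤ (k : ℝ) ^ 3 := one_le_pow₀ hk1
        calc (1 : ℝ) ≤ 8 ^ Nat.primeCounting k := a1
          _ ≤ 8 ^ Nat.primeCounting k * Real.exp L ^ 2 :=
              le_mul_of_one_le_right (by positivity) a2
          _ ≤ 8 ^ Nat.primeCounting k * Real.exp L ^ 2 * k ^ 3 :=
              le_mul_of_one_le_right (by positivity) a3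
      nlinarith
    have hT0 : (0 : ℝ) < T := by rw [hT]; push_cast; positivity
    have hER : (0 : ℝ) < E := by exact_mod_cast hE0
    have hnle : (nn E t : ℝ) ≤ T * E := by
      have : nn E t ≤ T * E := by
        have h1 : (t + 1) * E ≤ T * E := Nat.mul_le_mul_right _ htT
        omega
      exact_mod_cast this
    have hn0 : (0 : ℝ) < nn E t := by exact_mod_cast (by omega : 0 < nn E t)
    have h1 : Real.log (nn E t) ≤ Real.log T + Real.log E := by
      rw [← Real.log_mul hT0.ne' hER.ne']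
      exact Real.log_le_log hn0 hnle
    have h2 : Real.log T ≤ Real.log 25 + Nat.primeCounting k * Real.log 8 + 2 * L +
        3 * Real.log k := by
      refine (Real.log_le_log hT0 hTle).trans (le_of_eq ?_)
      rw [Real.log_mul (by positivity) (by positivity), Real.log_mul (by positivity)
        (by positivity), Real.log_mul (by positivity) (by positivity), Real.log_pow, Real.log_pow,
        Real.log_pow, Real.log_exp]
      push_cast
      ring
    have h3 := log_EE Y k
    have h4 : 2 * SD + ∑ p ∈ B, Real.log p ≤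
        ∑ p ∈ PK k, min 1 (2 * Int.fract ((k : ℝ) / p)) * Real.log p := by
      have hfr : ∀ p : ℕ, Int.fract ((k : ℝ) / p) = dl k p := by
        intro p
        unfold dl
        exact Int.fract_div_natCast_eq_div_natCast_mod
      have h5 : ∑ p ∈ A ∪ B, min 1 (2 * Int.fract ((k : ℝ) / p)) * Real.log p ≤
          ∑ p ∈ PK k, min 1 (2 * Int.fract ((k : ℝ) / p)) * Real.log p := by
        refine Finset.sum_le_sum_of_subset_of_nonneg (Finset.union_subset hAsub hBsub)
          fun p _ _ => mul_nonneg (le_min zero_le_one ?_) (Real.log_natCast_nonneg p)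
        have := Int.fract_nonneg ((k : ℝ) / p)
        positivity
      refine le_trans (le_of_eq ?_) h5
      rw [Finset.sum_union hAB, hSD, Finset.mul_sum]
      congr 1
      · refine Finset.sum_congr rfl fun p hp => ?_
        have hp2 := (mem_AA.1 hp).2.2.2
        have hp0 : (0 : ℝ) < p := by exact_mod_cast hApos p hp
        have h6 : 2 * dl k p ≤ 1 := by
          unfold dl
          rw [← mul_div_assoc, div_le_iff₀ hp0]
          have : (2 : ℝ) * (k % p : ℕ) < p := by exact_mod_cast hp2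
          linarith
        rw [hfr, min_eq_right h6]
        ring
      · refine Finset.sum_congr rfl fun p hp => ?_
        have hp2 := (mem_BB.1 hp).2.2.2
        have hp0 : (0 : ℝ) < p := by exact_mod_cast (hB p hp).1.pos
        have h6 : 1 ≤ 2 * dl k p := by
          unfold dl
          rw [← mul_div_assoc, le_div_iff₀ hp0]
          have : (p : ℝ) ≤ 2 * (k % p : ℕ) := by exact_mod_cast hp2
          linarith
        rw [hfr, min_eq_left h6, one_mul]
    have h5 : 16 * δ * k = ε₁ / 4 * k := by rw [hδ]; ring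
    have h6 : ε₁ * k ≤ ε * k := mul_le_mul_of_nonneg_right hε₁ε hk0.le
    have h7 : 2 * L = 2 * SD + 2 * (e * k) := by rw [hL]; ring
    have h8 : e * k = ε₁ / 8 * k := by rw [he]
    have h9 : 0 < ε₁ * k := by positivity
    have h10 : Real.log (nn E t) ≤ Real.log 25 + Nat.primeCounting k * Real.log 8 +
        3 * Real.log k + 2 * L + Real.log E := by linarith
    linarith

end H41.GK
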