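import Pool.Agent.H41.GK.Pnt
import Pool.Agent.H41.GK.Main

/-!
# The prime number theorem evaluation, conclusion (MP_d5700b)
-/

set_option autoImplicit false

open Finset Filter Topology

namespace H41.GK

/-- prime number theorem in difference form -/
theorem theta_diff_bound (δ : ℝ) (hδ : 0 < δ) : ∃ C : ℝ, 0 ≤ C ∧ ∀ k : ℕ, ∀ s t : ℝ, 0 < s →
    s ≤ t → t ≤ k → Chebyshev.theta t - Chebyshev.theta s ≤ t - s + (δ * k + C) := by
  obtain ⟨N₀, hN⟩ := Pool.Agent.H895R3.NU.theta_close (δ / 2) (by positivity)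
  have key : ∀ t : ℝ, 0 < t → |Chebyshev.theta t - t| ≤ δ / 2 * t +
      (1 + Chebyshev.theta N₀ + N₀) := by
    intro t ht
    have hth := Chebyshev.theta_nonneg (N₀ : ℝ)
    have hN0 : (0 : ℝ) ≤ N₀ := Nat.cast_nonneg _
    have hδt : 0 ≤ δ / 2 * t := by positivity
    by_cases h : N₀ ≤ ⌊t⌋₊
    · have h1 := hN _ h
      have h2 := Nat.floor_le ht.le
      have h3 := Nat.lt_floor_add_one t
      rw [← Chebyshev.theta_eq_theta_coe_floor] at h1
      have h4 : δ / 2 * (⌊t⌋₊ : ℝ) ≤ δ / 2 * t := mul_le_mul_of_nonneg_left h2 (by positivity)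
      rw [abs_le] at h1 ⊢
      constructor <;> linarith [h1.1, h1.2]
    · have h1 : t < N₀ := by
        rw [not_le] at h
        exact (Nat.floor_lt ht.le).1 h
      have h2 := Chebyshev.theta_mono h1.le
      have h3 := Chebyshev.theta_nonneg t
      rw [abs_le]
      constructor <;> linarith
  refine ⟨2 * (1 + Chebyshev.theta N₀ + N₀), ?_, ?_⟩
  · have hth := Chebyshev.theta_nonneg (N₀ : ℝ)
    positivity
  · intro k s t hs hst htk
    have h1 := (abs_le.1 (key t (by linarith))).2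
    have h2 := (abs_le.1 (key s hs)).1
    have h3 : δ / 2 * t ≤ δ / 2 * k := mul_le_mul_of_nonneg_left htk (by positivity)
    have h4 : δ / 2 * s ≤ δ / 2 * k := mul_le_mul_of_nonneg_left (hst.trans htk) (by positivity)
    linarith

theorem tele (G : ℕ → ℝ) (k J : ℕ) :
    ∑ p ∈ Ioc 0 k, G p = ∑ p ∈ Ioc 0 ⌊(k : ℝ) / (J + 1)⌋₊, G p +
      ∑ j ∈ range J, ∑ p ∈ Ioc ⌊(k : ℝ) / (((j + 1 : ℕ) : ℝ) + 1)⌋₊
        ⌊(k : ℝ) / ((j + 1 : ℕ) : ℝ)⌋₊, G p := by
  induction J with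
  | zero => simp
  | succ J ih =>
    rw [ih, Finset.sum_range_succ]
    have h : ⌊(k : ℝ) / (((J + 1 : ℕ) : ℝ) + 1)⌋₊ ≤ ⌊(k : ℝ) / ((J + 1 : ℕ) : ℝ)⌋₊ := by
      apply Nat.floor_le_floor
      apply div_le_div_of_nonneg_left (Nat.cast_nonneg _)
      · positivity
      · linarith
    have h2 := Finset.sum_Ioc_consecutive G (Nat.zero_le _) h
    have h3 : ((J : ℝ) + 1) = ((J + 1 : ℕ) : ℝ) := by push_cast; ring
    rw [h3, ← h2]
    ring

/-- the sum over primes -/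
theorem sum_le (ε : ℝ) (hε : 0 < ε) : ∃ k₀ : ℕ, ∀ k ≥ k₀,
    ∑ p ∈ PK k, min 1 (2 * Int.fract ((k : ℝ) / p)) * Real.log p ≤ (c0 + ε) * k := by
  obtain ⟨J, hJ⟩ := exists_nat_gt (6 / ε)
  have hJ0 : (0 : ℝ) < J := lt_trans (by positivity) hJ
  obtain ⟨M, hM⟩ := exists_nat_gt (8 * J / ε + 1)
  have hM0 : (1 : ℝ) < M := lt_of_le_of_lt (by
    have : 0 ≤ 8 * (J : ℝ) / ε := by positivity
    linarith) hM
  set δ : ℝ := ε / (4 * J * (M + 1)) with hδ
  have hδ0 : 0 < δ := by positivity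
  obtain ⟨C, hC0, hC⟩ := theta_diff_bound δ hδ0
  obtain ⟨k₀, hk₀⟩ := exists_nat_gt (4 * J * (M + 1) * C / ε + 1)
  refine ⟨k₀, fun k hk => ?_⟩
  have hkk : 4 * J * (M + 1) * C / ε + 1 < (k : ℝ) := lt_of_lt_of_le hk₀ (by exact_mod_cast hk)
  have hk1 : (1 : ℝ) < k := lt_of_le_of_lt (by
    have : 0 ≤ 4 * J * (M + 1) * C / ε := by positivity
    linarith) hkk
  have hkpos : 0 < k := by
    have : (0 : ℝ) < k := by linarith
    exact_mod_cast this
  have e1 : ∑ p ∈ PK k, min 1 (2 * Int.fract ((k : ℝ) / p)) * Real.log p =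
      ∑ p ∈ Ioc 0 k, FF k p * cc p := by
    unfold PK
    rw [Finset.sum_filter]
    have : Icc 1 k = Ioc 0 k := by ext x; simp [Nat.succ_le_iff]
    rw [this]
    refine Finset.sum_congr rfl fun p _ => ?_
    unfold FF cc
    split_ifs <;> simp
  rw [e1, tele _ k J]
  have b1 : ∑ p ∈ Ioc 0 ⌊(k : ℝ) / (J + 1)⌋₊, FF k p * cc p ≤ ε / 4 * k := by
    have h1 : ∑ p ∈ Ioc 0 ⌊(k : ℝ) / (J + 1)⌋₊, FF k p * cc p ≤
        ∑ p ∈ Ioc 0 ⌊(k : ℝ) / (J + 1)⌋₊, cc p :=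
      Finset.sum_le_sum fun p _ => mul_le_of_le_one_left (cc_nonneg p) (FF_le_one k p)
    rw [← theta_cc] at h1
    have h2 := Chebyshev.theta_le_log4_mul_x (x := (k : ℝ) / (J + 1)) (by positivity)
    have h3 : Real.log 4 ≤ 3 / 2 := by
      have : Real.log 4 = 2 * Real.log 2 := by
        rw [show (4 : ℝ) = 2 ^ 2 by norm_num, Real.log_pow]; norm_num
      rw [this]
      have := Real.log_two_lt_d9
      linarith
    have h4 : (k : ℝ) / (J + 1) ≤ k * (ε / 6) := by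
      rw [div_le_iff₀ (by positivity)]
      have h5 : 6 < (J : ℝ) * ε := by
        rwa [div_lt_iff₀ hε] at hJ
      have h6 : (k : ℝ) * 6 ≤ k * (J * ε) := mul_le_mul_of_nonneg_left h5.le (by linarith)
      nlinarith [mul_pos (show (0:ℝ) < k by linarith) hε]
    have h7 : (0 : ℝ) ≤ (k : ℝ) / (J + 1) := by positivity
    calc _ ≤ _ := h1
      _ ≤ Real.log 4 * (k / (J + 1)) := h2
      _ ≤ 3 / 2 * (k / (J + 1)) := mul_le_mul_of_nonneg_right h3 h7
      _ ≤ 3 / 2 * (k * (ε / 6)) := mul_le_mul_of_nonneg_left h4 (by norm_num)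
      _ = ε / 4 * k := by ring
  have b2 : ∑ j ∈ range J, ∑ p ∈ Ioc ⌊(k : ℝ) / (((j + 1 : ℕ) : ℝ) + 1)⌋₊
        ⌊(k : ℝ) / ((j + 1 : ℕ) : ℝ)⌋₊, FF k p * cc p ≤
      ∑ j ∈ range J, (k * (2 * Real.log ((2 * j + 3 : ℝ) / (2 * j + 2)) - 1 / ((j : ℝ) + 2)) +
        (k * (2 / M) + (M + 1) * (δ * k + C))) := by
    refine Finset.sum_le_sum fun j _ => ?_
    have hb := block k (j + 1) M (by omega) hkpos (by exact_mod_cast hM0.le) (δ * k + C)
      (fun s t hs hst htk => hC k s t hs hst htk)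
    refine hb.trans (le_of_eq ?_)
    have a1 : (2 * ((j + 1 : ℕ) : ℝ) + 1) = 2 * j + 3 := by push_cast; ring
    have a2 : (2 * ((j + 1 : ℕ) : ℝ)) = 2 * j + 2 := by push_cast; ring
    have a3 : (((j + 1 : ℕ) : ℝ) + 1) = j + 2 := by push_cast; ring
    rw [a1, a2, a3]
    ring
  rw [Finset.sum_add_distrib, ← Finset.mul_sum, Finset.sum_const, card_range, nsmul_eq_mul] at b2
  have b3 : (k : ℝ) * ∑ j ∈ range J, (2 * Real.log ((2 * j + 3 : ℝ) / (2 * j + 2)) -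
      1 / ((j : ℝ) + 2)) ≤ k * c0 := mul_le_mul_of_nonneg_left (sJ_le J) (by linarith)
  have b4 : (J : ℝ) * (k * (2 / M)) ≤ ε / 4 * k := by
    have h1 : 8 * (J : ℝ) / ε ≤ M := by linarith
    rw [div_le_iff₀ hε] at h1
    have : (J : ℝ) * (2 / M) ≤ ε / 4 := by
      rw [mul_div_assoc', div_le_iff₀ (by linarith)]
      linarith
    calc (J : ℝ) * (k * (2 / M)) = J * (2 / M) * k := by ring
      _ ≤ ε / 4 * k := mul_le_mul_of_nonneg_right this (by linarith)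
  have b5 : (J : ℝ) * ((M + 1) * (δ * k)) = ε / 4 * k := by
    rw [hδ]; field_simp
  have b6 : (J : ℝ) * ((M + 1) * C) ≤ ε / 4 * k := by
    have h1 : 4 * J * (M + 1) * C / ε ≤ (k : ℝ) := by linarith
    rw [div_le_iff₀ hε] at h1
    linarith
  have b7 : (J : ℝ) * (k * (2 / M) + (M + 1) * (δ * k + C)) = J * (k * (2 / M)) +
      J * ((M + 1) * (δ * k)) + J * ((M + 1) * C) := by ring
  rw [b7, b5] at b2
  nlinarith

end H41.GK
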