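import Mathlib

/-!
# Periodic functions: means over full periods, products, errors in short intervals (MP_d5700b)
-/

set_option autoImplicit false

open Finset

namespace H41.GK

/-- `f` has period `d` -/
def Pd (f : ℕ → ℝ) (d : ℕ) : Prop := ∀ t, f (t + d) = f t

theorem Pd.mul_nat {f : ℕ → ℝ} {d : ℕ} (h : Pd f d) (q t : ℕ) : f (t + q * d) = f t := by
  induction q with
  | zero => simp
  | succ q ih => rw [Nat.succ_mul, ← add_assoc, h, ih]

theorem Pd.of_dvd {f : ℕ → ℝ} {d e : ℕ} (h : Pd f d) (hd : d ∣ e) : Pd f e := by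
  obtain ⟨q, rfl⟩ := hd
  intro t
  rw [mul_comm]
  exact h.mul_nat q t

theorem Pd.mod {f : ℕ → ℝ} {d : ℕ} (h : Pd f d) (t : ℕ) : f t = f (t % d) := by
  conv_lhs => rw [← Nat.mod_add_div t d, mul_comm]
  exact h.mul_nat _ _

theorem Pd.mul {f g : ℕ → ℝ} {d : ℕ} (h : Pd f d) (h' : Pd g d) : Pd (fun t => f t * g t) d :=
  fun t => by simp only [h t, h' t]

theorem Pd.prod {ι : Type} {A : Finset ι} {f : ι → ℕ → ℝ} {d : ℕ} (h : ∀ i ∈ A, Pd (f i) d) :
    Pd (fun t => ∏ i ∈ A, f i t) d :=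
  fun t => Finset.prod_congr rfl fun i hi => h i hi t

theorem sum_mul_period {f : ℕ → ℝ} {d : ℕ} (h : Pd f d) (q : ℕ) :
    ∑ t ∈ range (q * d), f t = q * ∑ t ∈ range d, f t := by
  induction q with
  | zero => simp
  | succ q ih =>
    rw [Nat.succ_mul, Finset.sum_range_add, ih]
    have : ∑ x ∈ range d, f (q * d + x) = ∑ x ∈ range d, f x :=
      Finset.sum_congr rfl fun x _ => by rw [add_comm]; exact h.mul_nat q x
    rw [this]
    push_cast
    ring

/-- error of the mean in a short interval -/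
theorem period_error {f : ℕ → ℝ} {d R : ℕ} (hd : 0 < d) (h : Pd f d) (hR : d ∣ R) (hR0 : 0 < R)
    (hf : ∀ t, |f t| ≤ 1) (T : ℕ) :
    |∑ t ∈ range T, f t - T * ((∑ t ∈ range R, f t) / R)| ≤ 2 * d := by
  obtain ⟨q, rfl⟩ := hR
  have hq : 0 < q := Nat.pos_of_mul_pos_left hR0
  have hqR : (0 : ℝ) < q := by exact_mod_cast hq
  have hdR : (0 : ℝ) < d := by exact_mod_cast hd
  have e1 : (∑ t ∈ range (d * q), f t) / ((d * q : ℕ) : ℝ) = (∑ t ∈ range d, f t) / d := by
    rw [mul_comm d q, sum_mul_period h]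
    push_cast
    field_simp
  rw [e1]
  set a := ∑ t ∈ range d, f t with ha
  have e2 : ∑ t ∈ range T, f t = (T / d : ℕ) * a + ∑ t ∈ range (T % d), f t := by
    conv_lhs => rw [← Nat.div_add_mod T d, mul_comm d]
    rw [Finset.sum_range_add, sum_mul_period h]
    congr 1
    exact Finset.sum_congr rfl fun x _ => by rw [add_comm]; exact h.mul_nat _ x
  have e3 : (T : ℝ) = (T / d : ℕ) * d + (T % d : ℕ) := by
    exact_mod_cast (by rw [mul_comm]; exact (Nat.div_add_mod T d).symm)
  have b1 : |∑ t ∈ range (T % d), f t| ≤ (T % d : ℕ) := by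
    refine (Finset.abs_sum_le_sum_abs _ _).trans ?_
    refine (Finset.sum_le_sum fun t _ => hf t).trans ?_
    simp
  have b2 : |a / d| ≤ 1 := by
    rw [abs_div, abs_of_pos hdR, div_le_one hdR, ha]
    refine (Finset.abs_sum_le_sum_abs _ _).trans ?_
    refine (Finset.sum_le_sum fun t _ => hf t).trans ?_
    simp
  have b3 : ((T % d : ℕ) : ℝ) ≤ d := by exact_mod_cast (Nat.mod_lt T hd).le
  have b4 : (0 : ℝ) ≤ (T % d : ℕ) := Nat.cast_nonneg _
  have e4 : ∑ t ∈ range T, f t - T * (a / d) =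
      ∑ t ∈ range (T % d), f t - (T % d : ℕ) * (a / d) := by
    rw [e2, e3]
    field_simp
    ring
  rw [e4]
  calc |∑ t ∈ range (T % d), f t - (T % d : ℕ) * (a / d)|
      ≤ |∑ t ∈ range (T % d), f t| + |(T % d : ℕ) * (a / d)| := abs_sub _ _
    _ ≤ (T % d : ℕ) + (T % d : ℕ) * 1 := by
        refine add_le_add b1 ?_
        rw [abs_mul, abs_of_nonneg b4]
        exact mul_le_mul_of_nonneg_left b2 b4
    _ ≤ 2 * d := by linarith

/-- affine maps with unit slope permute the residues -/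
theorem sum_affine {q u : ℕ} (hq : 0 < q) (hu : Nat.Coprime u q) (v : ℕ) (F : ℕ → ℝ) :
    ∑ t ∈ range q, F ((v + u * t) % q) = ∑ a ∈ range q, F a := by
  have hmaps : Set.MapsTo (fun t => (v + u * t) % q) (range q : Set ℕ) (range q : Set ℕ) := by
    intro t _
    simp only [coe_range, Set.mem_Iio]
    exact Nat.mod_lt _ hq
  have hinj : Set.InjOn (fun t => (v + u * t) % q) (range q : Set ℕ) := by
    intro a ha b hb hab
    simp only [coe_range, Set.mem_Iio] at ha hb
    have h1 : (v + u * a) ≡ (v + u * b) [MOD q] := hab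
    have h2 : u * a ≡ u * b [MOD q] := Nat.ModEq.add_left_cancel' v h1
    have h3 : a ≡ b [MOD q] := Nat.ModEq.cancel_left_of_coprime (by rwa [Nat.coprime_comm] at hu) h2
    have h4 : a % q = b % q := h3
    rwa [Nat.mod_eq_of_lt ha, Nat.mod_eq_of_lt hb] at h4
  have hsurj : Set.SurjOn (fun t => (v + u * t) % q) (range q : Set ℕ) (range q : Set ℕ) :=
    Finset.surjOn_of_injOn_of_card_le _ hmaps hinj le_rfl
  exact Finset.sum_nbij (fun t => (v + u * t) % q) (fun t ht => by
    simpa using hmaps (by simpa using ht)) hinj hsurj (fun _ _ => rfl)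

/-- number of residues below `r` -/
theorem sum_lt {q r : ℕ} (hr : r ≤ q) : ∑ a ∈ range q, (if a < r then (1 : ℝ) else 0) = r := by
  rw [← Finset.sum_filter, Finset.sum_const, nsmul_eq_mul, mul_one]
  congr 1
  have : (range q).filter (fun a => a < r) = range r := by
    ext a
    simp only [mem_filter, mem_range]
    omega
  rw [this, card_range]

/-- block lemma -/
theorem sum_block {h g : ℕ → ℝ} {D q : ℕ} {c : ℝ} (hh : Pd h D)
    (hg : ∀ t₀, ∑ j ∈ range q, g (t₀ + D * j) = c) :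
    ∑ t ∈ range (D * q), h t * g t = c * ∑ t ∈ range D, h t := by
  have h1 : ∀ (Q : ℕ) (f : ℕ → ℝ), ∑ t ∈ range (D * Q), f t =
      ∑ j ∈ range Q, ∑ t ∈ range D, f (t + D * j) := by
    intro Q f
    induction Q with
    | zero => simp
    | succ Q ih =>
      rw [Nat.mul_succ, Finset.sum_range_add, ih, Finset.sum_range_succ]
      congr 1
      exact Finset.sum_congr rfl fun t _ => by rw [add_comm]
  rw [h1, Finset.sum_comm, Finset.mul_sum]
  refine Finset.sum_congr rfl fun t _ => ?_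
  have h2 : ∀ j, h (t + D * j) = h t := fun j => by rw [mul_comm]; exact hh.mul_nat j t
  rw [← hg t, Finset.sum_mul]
  refine Finset.sum_congr rfl fun j _ => ?_
  rw [h2 j]
  ring

/-- two coprime periods -/
theorem sum_two {F G : ℕ → ℝ} {m n : ℕ} (hn : 0 < n) (hF : Pd F m) (hG : Pd G n)
    (hc : Nat.Coprime m n) :
    ∑ t ∈ range (m * n), F t * G t = (∑ t ∈ range m, F t) * ∑ t ∈ range n, G t := by
  rw [sum_block (c := ∑ t ∈ range n, G t) hF, mul_comm]
  intro t₀
  have h1 := sum_affine hn hc t₀ G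
  rw [← h1]
  exact Finset.sum_congr rfl fun j _ => hG.mod _

/-- product lemma -/
theorem sum_prod (A : Finset ℕ) (hA : ∀ p ∈ A, p.Prime) (f : ℕ → ℕ → ℝ)
    (hf : ∀ p ∈ A, Pd (f p) p) :
    ∑ t ∈ range (∏ p ∈ A, p), ∏ p ∈ A, f p t = ∏ p ∈ A, ∑ t ∈ range p, f p t := by
  induction A using Finset.induction_on with
  | empty => simp
  | insert q A hq ih =>
    have hA' : ∀ p ∈ A, p.Prime := fun p hp => hA p (mem_insert_of_mem hp)
    have hf' : ∀ p ∈ A, Pd (f p) p := fun p hp => hf p (mem_insert_of_mem hp)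
    have hqp := hA q (mem_insert_self q A)
    rw [Finset.prod_insert hq, Finset.prod_insert hq, ← ih hA' hf']
    simp only [Finset.prod_insert hq]
    have hcop : Nat.Coprime q (∏ p ∈ A, p) := by
      refine Nat.Coprime.prod_right fun p hp => ?_
      exact (Nat.coprime_primes hqp (hA' p hp)).2 (fun h => hq (h ▸ hp))
    have hpos : 0 < ∏ p ∈ A, p := Finset.prod_pos fun p hp => (hA' p hp).pos
    refine sum_two hpos (hf q (mem_insert_self q A)) ?_ hcop
    exact Pd.prod fun p hp => (hf' p hp).of_dvd (Finset.dvd_prod_of_mem (fun p => p) hp)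

end H41.GK
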