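import Pool.Agent.H41.GK.Asym
import Pool.Agent.H41.GK.Const
import Pool.Graph.R_seed8.H895R3.NU.F4

/-!
# Evaluation of the sum over primes (prime number theorem) (MP_d5700b)
-/

set_option autoImplicit false

open Finset Filter Topology

namespace H41.GK

/-- `log p` on primes -/
noncomputable def cc (n : ℕ) : ℝ := if n.Prime then Real.log n else 0

theorem cc_nonneg (n : ℕ) : 0 ≤ cc n := by
  unfold cc; split_ifs
  · exact Real.log_natCast_nonneg n
  · exact le_rfl

/-- Chebyshev function on real numbers as a sum over `Ioc 0 ⌊t⌋` -/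
theorem theta_cc (t : ℝ) : Chebyshev.theta t = ∑ p ∈ Ioc 0 ⌊t⌋₊, cc p := by
  unfold Chebyshev.theta cc
  rw [Finset.sum_filter]

theorem theta_diff {s t : ℝ} (h : s ≤ t) :
    ∑ p ∈ Ioc ⌊s⌋₊ ⌊t⌋₊, cc p = Chebyshev.theta t - Chebyshev.theta s := by
  rw [theta_cc, theta_cc, ← Finset.sum_Ioc_consecutive cc (Nat.zero_le _) (Nat.floor_le_floor h)]
  ring

/-- mesh bound for a nonincreasing function -/
theorem mesh (f : ℝ → ℝ) (g : ℕ → ℝ) (a q : ℝ) (ha : 0 < a) (hq : 1 ≤ q) (M : ℕ)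
    (hf : ∀ l < M, ∀ p : ℕ, a * q ^ l < p → (p : ℝ) ≤ a * q ^ (l + 1) → g p ≤ f (a * q ^ l)) :
    ∑ p ∈ Ioc ⌊a⌋₊ ⌊a * q ^ M⌋₊, g p * cc p ≤
      ∑ l ∈ range M, f (a * q ^ l) * (Chebyshev.theta (a * q ^ (l + 1)) -
        Chebyshev.theta (a * q ^ l)) := by
  induction M with
  | zero => simp
  | succ M ih =>
    have ih' := ih fun l hl => hf l (by omega)
    have h1 : a ≤ a * q ^ M := le_mul_of_one_le_right ha.le (one_le_pow₀ hq)
    have h2 : a * q ^ M ≤ a * q ^ (M + 1) :=
      mul_le_mul_of_nonneg_left (pow_le_pow_right₀ hq (by omega)) ha.le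
    rw [← Finset.sum_Ioc_consecutive (fun p => g p * cc p) (Nat.floor_le_floor h1)
      (Nat.floor_le_floor h2), Finset.sum_range_succ]
    refine add_le_add ih' ?_
    rw [← theta_diff h2, Finset.mul_sum]
    refine Finset.sum_le_sum fun p hp => ?_
    rw [mem_Ioc] at hp
    have hp0 : 0 < p := by omega
    exact mul_le_mul_of_nonneg_right (hf M (by omega) p
      ((Nat.floor_lt (by positivity)).1 hp.1) ((Nat.le_floor_iff (by positivity)).1 hp.2))
      (cc_nonneg p)

/-- the summand -/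
noncomputable def FF (k p : ℕ) : ℝ := min 1 (2 * Int.fract ((k : ℝ) / p))

theorem FF_le_one (k p : ℕ) : FF k p ≤ 1 := min_le_left _ _

theorem FF_nonneg (k p : ℕ) : 0 ≤ FF k p :=
  le_min zero_le_one (mul_nonneg (by norm_num) (Int.fract_nonneg _))

/-- one block -/
theorem block (k j M : ℕ) (hj : 1 ≤ j) (hk : 0 < k) (hM : 1 ≤ M) (D : ℝ)
    (hD : ∀ s t : ℝ, 0 < s → s ≤ t → t ≤ k → Chebyshev.theta t - Chebyshev.theta s ≤ t - s + D) :
    ∑ p ∈ Ioc ⌊(k : ℝ) / (j + 1)⌋₊ ⌊(k : ℝ) / j⌋₊, FF k p * cc p ≤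
      k * (2 * Real.log ((2 * j + 1 : ℝ) / (2 * j)) + 2 / M - 1 / ((j : ℝ) + 1)) +
        (M + 1) * D := by
  have hjR : (1 : ℝ) ≤ j := by exact_mod_cast hj
  have hj0 : (0 : ℝ) < j := by linarith
  have hkR : (0 : ℝ) < k := by exact_mod_cast hk
  have hMR : (0 : ℝ) < M := by exact_mod_cast hM
  set a : ℝ := 2 * k / (2 * j + 1) with ha
  have ha0 : 0 < a := by positivity
  set x : ℝ := (2 * j + 1) / (2 * j) with hx
  have hx1 : 1 < x := by
    rw [hx, lt_div_iff₀ (by positivity)]; linarith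
  have hlx : 0 < Real.log x := Real.log_pos hx1
  have hlx1 : Real.log x ≤ 1 := by
    have h1 := Real.log_le_sub_one_of_pos (show 0 < x by linarith)
    have h2 : x ≤ 2 := by
      rw [hx, div_le_iff₀ (by positivity)]; linarith
    linarith
  set q : ℝ := Real.exp (Real.log x / M) with hq
  have hq1 : 1 ≤ q := Real.one_le_exp (by positivity)
  have hqM : a * q ^ M = k / j := by
    rw [hq, ← Real.exp_nat_mul, mul_div_cancel₀ _ hMR.ne', Real.exp_log (by linarith), ha, hx]
    field_simp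
  have hb1 : (k : ℝ) / (j + 1) ≤ a := by
    rw [ha, div_le_div_iff₀ (by positivity) (by positivity)]
    nlinarith
  have hb2 : a ≤ k / j := by
    rw [← hqM]; exact le_mul_of_one_le_right ha0.le (one_le_pow₀ hq1)
  have hbk : (k : ℝ) / j ≤ k := div_le_self hkR.le hjR
  have hD0 : 0 ≤ D := by
    have := hD a a ha0 le_rfl (hb2.trans hbk)
    simp only [sub_self] at this
    linarith
  rw [← Finset.sum_Ioc_consecutive (fun p => FF k p * cc p) (Nat.floor_le_floor hb1)
    (Nat.floor_le_floor hb2)]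
  -- first part
  have p1 : ∑ p ∈ Ioc ⌊(k : ℝ) / (j + 1)⌋₊ ⌊a⌋₊, FF k p * cc p ≤ a - k / (j + 1) + D := by
    have h1 : ∑ p ∈ Ioc ⌊(k : ℝ) / (j + 1)⌋₊ ⌊a⌋₊, FF k p * cc p ≤
        ∑ p ∈ Ioc ⌊(k : ℝ) / (j + 1)⌋₊ ⌊a⌋₊, cc p :=
      Finset.sum_le_sum fun p _ => mul_le_of_le_one_left (cc_nonneg p) (FF_le_one k p)
    rw [theta_diff hb1] at h1
    exact h1.trans (hD _ _ (by positivity) hb1 (hb2.trans hbk))
  -- second part
  have p2 := mesh (fun t => 2 * (k / t - j)) (FF k) a q ha0 hq1 M (by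
    intro l hl p hp1 hp2
    have hl1 : a ≤ a * q ^ l := le_mul_of_one_le_right ha0.le (one_le_pow₀ hq1)
    have hp0 : (0 : ℝ) < p := by linarith
    have hp3 : (p : ℝ) ≤ k / j := by
      refine hp2.trans ?_
      rw [← hqM]
      exact mul_le_mul_of_nonneg_left (pow_le_pow_right₀ hq1 (by omega)) ha0.le
    have e1 : (j : ℝ) ≤ k / p := by
      rw [le_div_iff₀ hp0]
      rw [le_div_iff₀ hj0] at hp3
      linarith
    have e2 : (k : ℝ) / p < j + 1 := by
      rw [div_lt_iff₀ hp0]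
      have : (k : ℝ) / (j + 1) < p := by linarith
      rw [div_lt_iff₀ (by positivity)] at this
      linarith
    have e3 : Int.fract ((k : ℝ) / p) = k / p - j := by
      rw [Int.fract_eq_iff]
      refine ⟨by linarith, by linarith, j, ?_⟩
      push_cast
      ring
    have e4 : FF k p ≤ 2 * (k / p - j) := by
      unfold FF
      rw [e3]
      exact min_le_right _ _
    refine e4.trans ?_
    have e5 : (k : ℝ) / p ≤ k / (a * q ^ l) :=
      div_le_div_of_nonneg_left hkR.le (by positivity) hp1.le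
    linarith)
  rw [hqM] at p2
  have p3 : ∑ l ∈ range M, (fun t => 2 * ((k : ℝ) / t - j)) (a * q ^ l) *
      (Chebyshev.theta (a * q ^ (l + 1)) - Chebyshev.theta (a * q ^ l)) ≤
      ∑ l ∈ range M, (2 * k * (q - 1) - 2 * j * (a * q ^ (l + 1) - a * q ^ l) + D) := by
    refine Finset.sum_le_sum fun l hl => ?_
    rw [mem_range] at hl
    have hl1 : a ≤ a * q ^ l := le_mul_of_one_le_right ha0.le (one_le_pow₀ hq1)
    have hl0 : 0 < a * q ^ l := by positivity
    have hl2 : a * q ^ l ≤ a * q ^ (l + 1) :=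
      mul_le_mul_of_nonneg_left (pow_le_pow_right₀ hq1 (by omega)) ha0.le
    have hl3 : a * q ^ (l + 1) ≤ k / j := by
      rw [← hqM]
      exact mul_le_mul_of_nonneg_left (pow_le_pow_right₀ hq1 (by omega)) ha0.le
    have hd := hD _ _ hl0 hl2 (hl3.trans hbk)
    have f0 : 0 ≤ 2 * ((k : ℝ) / (a * q ^ l) - j) := by
      have : (j : ℝ) ≤ k / (a * q ^ l) := by
        rw [le_div_iff₀ hl0]
        have h4 := hl2.trans hl3
        rw [le_div_iff₀ hj0] at h4
        linarith
      linarith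
    have f1 : 2 * ((k : ℝ) / (a * q ^ l) - j) ≤ 1 := by
      have : (k : ℝ) / (a * q ^ l) ≤ k / a := div_le_div_of_nonneg_left hkR.le ha0 hl1
      have e : (k : ℝ) / a = j + 1 / 2 := by
        rw [ha]; field_simp
      linarith
    have g1 : 2 * ((k : ℝ) / (a * q ^ l) - j) * (a * q ^ (l + 1) - a * q ^ l) =
        2 * k * (q - 1) - 2 * j * (a * q ^ (l + 1) - a * q ^ l) := by
      rw [pow_succ]
      field_simp
    show 2 * ((k : ℝ) / (a * q ^ l) - j) * _ ≤ _
    calc 2 * ((k : ℝ) / (a * q ^ l) - j) *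
          (Chebyshev.theta (a * q ^ (l + 1)) - Chebyshev.theta (a * q ^ l))
        ≤ 2 * ((k : ℝ) / (a * q ^ l) - j) * (a * q ^ (l + 1) - a * q ^ l + D) :=
          mul_le_mul_of_nonneg_left hd f0
      _ = 2 * ((k : ℝ) / (a * q ^ l) - j) * (a * q ^ (l + 1) - a * q ^ l) +
          2 * ((k : ℝ) / (a * q ^ l) - j) * D := by ring
      _ ≤ _ := by
          rw [g1]
          have := mul_le_mul_of_nonneg_right f1 hD0
          linarith
  have p4 : ∑ l ∈ range M, (2 * k * (q - 1) - 2 * j * (a * q ^ (l + 1) - a * q ^ l) + D) =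
      2 * k * (M * (q - 1)) - 2 * j * (k / j - a) + M * D := by
    have e1 : ∑ l ∈ range M, 2 * (j : ℝ) * (a * q ^ (l + 1) - a * q ^ l) =
        2 * j * (k / j - a) := by
      rw [← Finset.mul_sum, Finset.sum_range_sub (fun l => a * q ^ l), hqM]
      simp
    rw [Finset.sum_add_distrib, Finset.sum_sub_distrib, e1, Finset.sum_const,
      Finset.sum_const, card_range]
    simp only [nsmul_eq_mul]
    ring
  have p5 : (M : ℝ) * (q - 1) ≤ Real.log x + 1 / M := by
    have h1 : |Real.exp (Real.log x / M) - 1 - Real.log x / M| ≤ (Real.log x / M) ^ 2 := by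
      apply Real.abs_exp_sub_one_sub_id_le
      rw [abs_of_nonneg (by positivity), div_le_one hMR]
      have : (1 : ℝ) ≤ M := by exact_mod_cast hM
      linarith
    have h2 := (abs_le.1 h1).2
    rw [← hq] at h2
    have h3 : (M : ℝ) * (q - 1) ≤ M * (Real.log x / M + (Real.log x / M) ^ 2) :=
      mul_le_mul_of_nonneg_left (by linarith) hMR.le
    have h4 : (M : ℝ) * (Real.log x / M + (Real.log x / M) ^ 2) =
        Real.log x + Real.log x ^ 2 / M := by field_simp
    have h5 : Real.log x ^ 2 / M ≤ 1 / M := by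
      apply div_le_div_of_nonneg_right _ hMR.le
      nlinarith
    linarith
  have p6 : a - k / (j + 1) - 2 * j * (k / j - a) = -(k * (1 / ((j : ℝ) + 1))) := by
    rw [ha]; field_simp; ring
  have p7 : 2 * (k : ℝ) * (M * (q - 1)) ≤ 2 * k * (Real.log x + 1 / M) :=
    mul_le_mul_of_nonneg_left p5 (by positivity)
  have p8 : 2 * (k : ℝ) * (Real.log x + 1 / M) = k * (2 * Real.log x + 2 / M) := by ring
  have p9 := p2.trans (p3.trans (le_of_eq p4))
  nlinarith

end H41.GK
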